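import Pool.Agent.Lib_helper15.PENT.TFacts

/-!
# PENT (MP_892e4c_nt), part T: the nested sum (helper15)
-/

set_option autoImplicit false

namespace Pool.Agent.PENT

open Finset Filter

theorem card_pf_le {m : ℕ} (hm : 0 < m) : (m.primeFactors.card : ℝ) ≤ 2 * Real.log m := by
  have h1 : 2 ^ m.primeFactors.card ≤ m := by
    calc 2 ^ m.primeFactors.card ≤ ∏ p ∈ m.primeFactors, p :=
          Finset.pow_card_le_prod _ _ _ (fun p hp => (Nat.prime_of_mem_primeFactors hp).two_le)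
      _ ≤ m := Nat.le_of_dvd hm (Nat.prod_primeFactors_dvd m)
  have h2 : ((2 : ℝ) ^ m.primeFactors.card) ≤ m := by exact_mod_cast h1
  have h3 := Real.log_le_log (by positivity) h2
  rw [Real.log_pow] at h3
  have h4 : (0.69 : ℝ) < Real.log 2 := by have := Real.log_two_gt_d9; linarith
  have h5 : (0 : ℝ) ≤ m.primeFactors.card := Nat.cast_nonneg _
  nlinarith

theorem fz_card (P : ℝ) {m : ℕ} (hm : 0 < m) : ((Fz P m).card : ℝ) ≤ 2 * Real.log m := by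
  classical
  refine le_trans ?_ (card_pf_le hm)
  unfold Fz
  exact_mod_cast le_trans Finset.card_image_le (Finset.card_filter_le _ _)

theorem fr_card (P : ℝ) {m : ℕ} (x y : ℤ) (hm : 0 < m) :
    ((Fr P m x y).card : ℝ) ≤ 2 * Real.log m := by
  classical
  refine le_trans ?_ (card_pf_le hm)
  unfold Fr
  exact_mod_cast le_trans Finset.card_image_le (Finset.card_filter_le _ _)

/-- a bound for `m` gives a bound for the number of excluded residues -/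
theorem fz_card' (P : ℝ) {m : ℕ} {X : ℕ} {k : ℕ} (hm : 0 < m)
    (h : (m : ℝ) ≤ (X : ℝ) ^ k) : ((Fz P m).card : ℝ) ≤ 2 * k * Real.log X := by
  refine (fz_card P hm).trans ?_
  have h1 : Real.log m ≤ k * Real.log X := by
    rw [← Real.log_pow]
    exact Real.log_le_log (by exact_mod_cast hm) h
  nlinarith

theorem pd_sum (P α D : ℝ) (q : ℕ) (r : ℤ) (F : Finset (ℕ × ℤ)) :
    ∑ n ∈ PD D P q r F, fw P α n / n = ∑ n ∈ Pset (1 / 100) D q r F, fw P α n / n := by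
  classical
  unfold PD
  rw [Finset.sum_filter]
  apply Finset.sum_congr rfl
  intro n _
  by_cases h : DP P n
  · rw [if_pos h]
  · rw [if_neg h]
    unfold fw
    rw [if_neg h, zero_div]

/-- sizes: everything is bounded by powers of `X` -/
theorem win_sizes {ρ : ℝ} {p : Par} (hg : Geo ρ p) {X : ℕ} (hX : 2 ≤ X) {s : Fin 5 → ℝ}
    (hw : Win p X s) : ∀ j, 1 ≤ s j ∧ (X : ℝ) ^ p.e j ≤ s j ∧
      20 * s j ≤ (X : ℝ) ^ (p.e j + p.ep / 50) ∧ 20 * s j ≤ (X : ℝ) ^ (1 / 50 : ℝ) := by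
  intro j
  have hX1 : (1 : ℝ) ≤ X := by exact_mod_cast (by omega : 1 ≤ X)
  have h1 := hw j
  have he := hg.e4 j
  have hk := hg.ek j
  have h0 := hg.ep0
  have h2 : (1 : ℝ) ≤ (X : ℝ) ^ p.e j := Real.one_le_rpow hX1 (by linarith)
  refine ⟨h2.trans h1.1, h1.1, h1.2, h1.2.trans ?_⟩
  exact Real.rpow_le_rpow_of_exponent_le hX1 (by linarith)

/-- the sizes of the moduli, the windows and the entries; `Z = X^(1/50)` -/
theorem st_sizes {s : Fin 5 → ℝ} {Z : ℝ} (h1 : ∀ j, 1 ≤ s j) (hZ : ∀ j, 20 * s j ≤ Z)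
    {v w : ℤ × ℤ} (hb : Bas s v w) :
    (s 2 ≤ dt v w * s 2 / s 1 ∧ 101 / 100 * (dt v w * s 2 / s 1) ≤ Z ^ 2) ∧
    (s 2 ≤ 3 * (dt v w * s 2 / s 3) ∧ 101 / 100 * (3 * (dt v w * s 2 / s 3)) ≤ Z ^ 2) ∧
    (s 4 ≤ dt v w * s 4 / s 1 ∧ 101 / 100 * (dt v w * s 4 / s 1) ≤ Z ^ 2) ∧
    (s 4 ≤ dt v w * s 4 / s 3 ∧ 101 / 100 * (dt v w * s 4 / s 3) ≤ Z ^ 2) ∧
    (∀ x : ℝ, dt v w * s 4 / s 3 < x → x ≤ 101 / 100 * (dt v w * s 4 / s 3) →
      (s 0 ≤ x * s 0 / s 1 ∧ 101 / 100 * (x * s 0 / s 1) ≤ Z ^ 3) ∧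
      (s 0 ≤ x * s 0 / s 4 ∧ 101 / 100 * (x * s 0 / s 4) ≤ Z ^ 3) ∧
      x ≤ (20 * s 1) * (20 * s 4)) ∧
    (dt v w : ℝ) ≤ Z ^ 2 ∧ (dt v w : ℝ) ≤ (20 * s 1) * (20 * s 3) := by
  have hs : ∀ j, 0 < s j := fun j => by linarith [h1 j]
  obtain ⟨hD, hD1, hD2, -⟩ := bas_dt hs hb
  have a0 := h1 0
  have a1 := h1 1
  have a2 := h1 2
  have a3 := h1 3
  have a4 := h1 4
  have b0 := hZ 0
  have b1 := hZ 1
  have b2 := hZ 2
  have b3 := hZ 3
  have b4 := hZ 4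
  have hZ0 : 0 < Z := by linarith
  have pr : ∀ i j : Fin 5, s i * s j ≤ Z ^ 2 / 400 := by
    intro i j
    have := mul_le_mul (hZ i) (hZ j) (by linarith [h1 j]) hZ0.le
    nlinarith
  have p13 : 0 < s 1 * s 3 := mul_pos (hs 1) (hs 3)
  -- quotients
  have q1 : 7.9 * s 3 < dt v w / s 1 ∧ dt v w / s 1 < 8.6 * s 3 := by
    rw [lt_div_iff₀ (hs 1), div_lt_iff₀ (hs 1)]
    constructor <;> nlinarith
  have q3 : 7.9 * s 1 < dt v w / s 3 ∧ dt v w / s 3 < 8.6 * s 1 := by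
    rw [lt_div_iff₀ (hs 3), div_lt_iff₀ (hs 3)]
    constructor <;> nlinarith
  have r1 : ∀ j, dt v w * s j / s 1 = dt v w / s 1 * s j := fun j => by ring
  have r3 : ∀ j, dt v w * s j / s 3 = dt v w / s 3 * s j := fun j => by ring
  have l1 : ∀ j, s j ≤ dt v w / s 1 * s j := fun j => by
    have := hs j
    nlinarith [q1.1]
  have l3 : ∀ j, 7.9 * (s 1 * s j) ≤ dt v w / s 3 * s j := fun j => by
    have := mul_le_mul_of_nonneg_right q3.1.le (hs j).le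
    nlinarith
  have l3' : ∀ j, s j ≤ dt v w / s 3 * s j := fun j => by
    have := hs j
    nlinarith [q3.1]
  have m1 : ∀ j, dt v w / s 1 * s j ≤ 8.6 * (s 3 * s j) := fun j => by
    have := mul_le_mul_of_nonneg_right q1.2.le (hs j).le
    nlinarith
  have m3 : ∀ j, dt v w / s 3 * s j ≤ 8.6 * (s 1 * s j) := fun j => by
    have := mul_le_mul_of_nonneg_right q3.2.le (hs j).le
    nlinarith
  have z2 : 0 < Z ^ 2 := by positivity
  refine ⟨⟨?_, ?_⟩, ⟨?_, ?_⟩, ⟨?_, ?_⟩, ⟨?_, ?_⟩, ?_, ?_, ?_⟩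
  · rw [r1]; exact l1 2
  · rw [r1]; linarith [m1 2, pr 3 2]
  · rw [r3]; linarith [l3' 2, hs 2]
  · rw [r3]; linarith [m3 2, pr 1 2]
  · rw [r1]; exact l1 4
  · rw [r1]; linarith [m1 4, pr 3 4]
  · rw [r3]; exact l3' 4
  · rw [r3]; linarith [m3 4, pr 1 4]
  · intro x hx1 hx2
    rw [r3] at hx1 hx2
    have hx3 : 7.9 * (s 1 * s 4) < x := lt_of_le_of_lt (l3 4) hx1
    have hx4 : x ≤ 8.7 * (s 1 * s 4) := by nlinarith [m3 4, mul_pos (hs 1) (hs 4)]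
    have hx0 : 0 < x := by nlinarith [mul_pos (hs 1) (hs 4)]
    have y1 : 1 ≤ x / s 1 ∧ x / s 1 ≤ 8.7 * s 4 := by
      rw [le_div_iff₀ (hs 1), div_le_iff₀ (hs 1)]
      constructor <;> nlinarith
    have y4 : 1 ≤ x / s 4 ∧ x / s 4 ≤ 8.7 * s 1 := by
      rw [le_div_iff₀ (hs 4), div_le_iff₀ (hs 4)]
      constructor <;> nlinarith
    have e1 : x * s 0 / s 1 = x / s 1 * s 0 := by ring
    have e4 : x * s 0 / s 4 = x / s 4 * s 0 := by ring
    have z3 : Z ^ 2 ≤ Z ^ 3 := by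
      have : 1 ≤ Z := by linarith
      nlinarith
    have n1 := mul_le_mul_of_nonneg_right y1.2 (hs 0).le
    have n4 := mul_le_mul_of_nonneg_right y4.2 (hs 0).le
    refine ⟨⟨?_, ?_⟩, ⟨?_, ?_⟩, ?_⟩
    · rw [e1]; nlinarith [y1.1, hs 0]
    · rw [e1]; nlinarith [pr 4 0]
    · rw [e4]; nlinarith [y4.1, hs 0]
    · rw [e4]; nlinarith [pr 1 0]
    · nlinarith [mul_pos (hs 1) (hs 4)]
  · nlinarith [pr 1 3]
  · nlinarith

/-- the conclusion of `zsw` -/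
def ZW (α δ τ c : ℝ) (X₀ : ℕ) : Prop :=
  ∀ X ≥ X₀, ∀ (D : ℝ) (q : ℕ) (r : ℤ) (F : Finset (ℕ × ℤ)), (X : ℝ) ^ δ ≤ D → D ≤ X → Odd q →
      (q : ℝ) ≤ (X : ℝ) ^ (δ * τ) → IsCoprime r (q : ℤ) →
      (∀ a ∈ F, a.1.Prime ∧ PP X < (a.1 : ℝ) ∧ ¬ a.1 ∣ q) →
      (F.card : ℝ) ≤ 100 * Real.log X →
      c * Real.log X ^ (99 / 100 * α - 1) * (q.totient / (q : ℝ) ^ 2) ≤
        ∑ n ∈ PD D (PP X) q r F, fw (PP X) α n / n

/-- the conclusion of `xsw` -/
def XW (δ c : ℝ) (X₀ : ℕ) : Prop :=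
  ∀ X ≥ X₀, ∀ (D : ℝ) (q : ℕ) (r : ℤ) (F : Finset (ℕ × ℤ)), (X : ℝ) ^ δ ≤ D → D ≤ X → Odd q →
      (q : ℝ) ≤ (X : ℝ) ^ (δ / 2) → IsCoprime r (q : ℤ) →
      (∀ a ∈ F, a.1.Prime ∧ PP X < (a.1 : ℝ) ∧ ¬ a.1 ∣ q) →
      (F.card : ℝ) ≤ 100 * Real.log X →
      c * (1 / (q : ℝ)) ≤ ∑ n ∈ PO D q r F, (n.totient : ℝ) / (n : ℝ) ^ 2

section steps

variable {X : ℕ} {s : Fin 5 → ℝ} {v w : ℤ × ℤ} {t : ℕ → ℕ} {Z : ℝ}

/-- the standing hypotheses of the steps -/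
structure Stp (X : ℕ) (s : Fin 5 → ℝ) (v w : ℤ × ℤ) (Z : ℝ) : Prop where
  hX : 2 ≤ X
  h1 : ∀ j, 1 ≤ s j
  hZ : ∀ j, 20 * s j ≤ Z
  hZX : Z ^ 50 ≤ X
  hb : Bas s v w

theorem Stp.pos (h : Stp X s v w Z) (j : Fin 5) : 0 < s j := by linarith [h.h1 j]

theorem Stp.one (h : Stp X s v w Z) : 1 ≤ Z := by linarith [h.h1 0, h.hZ 0]

theorem Stp.pow (h : Stp X s v w Z) {k : ℕ} (hk : k ≤ 50) : Z ^ k ≤ X :=
  (pow_le_pow_right₀ h.one hk).trans h.hZX

theorem Stp.logX (h : Stp X s v w Z) : 0 ≤ Real.log X :=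
  Real.log_nonneg (by exact_mod_cast (by have := h.hX; omega : 1 ≤ X))

theorem Stp.absD (h : Stp X s v w Z) : ((dt v w).natAbs : ℝ) = dt v w := by
  have h1 := (bas_dt h.pos h.hb).1
  rw [Nat.cast_natAbs, abs_of_pos h1]

theorem Stp.oddD (h : Stp X s v w Z) : Odd (dt v w).natAbs :=
  Int.natAbs_odd.2 (bas_dt h.pos h.hb).2.2.2

theorem step0 {α δ τ c : ℝ} {X₀ : ℕ} (hz : ZW α δ τ c X₀) (hXX : X₀ ≤ X) (hδτ : 0 ≤ δ * τ)
    (h : Stp X s v w Z) (hδ : (X : ℝ) ^ δ ≤ s 2) :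
    c * Real.log X ^ (99 / 100 * α - 1) ≤
      ∑ n ∈ S5 (PP X) s v w 0 t, fw (PP X) α n / n := by
  obtain ⟨⟨a1, a2⟩, -, -, -, -, a3, -⟩ := st_sizes h.h1 h.hZ h.hb
  have hD := (bas_dt h.pos h.hb).1
  have hX1 : (1 : ℝ) ≤ X := by exact_mod_cast (by have := h.hX; omega : 1 ≤ X)
  have hpos : 0 < dt v w * s 2 / s 1 := by
    have : (0 : ℝ) < dt v w := by exact_mod_cast hD
    have := h.pos 1
    have := h.pos 2
    positivity
  have := hz X hXX (dt v w * s 2 / s 1) 1 0 (Fz (PP X) (dt v w).natAbs) (hδ.trans a1)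
    (by linarith [h.pow (k := 2) (by norm_num)]) odd_one
    (by rw [Nat.cast_one]; exact Real.one_le_rpow hX1 hδτ)
    (by norm_num)
    (by
      intro a ha
      obtain ⟨b1, b2, -⟩ := fz_mem.1 ha
      exact ⟨Nat.prime_of_mem_primeFactors b1, b2,
        fun hd => (Nat.prime_of_mem_primeFactors b1).one_lt.ne' (Nat.dvd_one.1 hd)⟩)
    (by
      refine (fz_card' (PP X) (X := X) (k := 1) (by simpa using hD.ne') ?_).trans ?_
      · rw [h.absD, pow_one]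
        exact a3.trans (h.pow (by norm_num))
      · have := h.logX
        push_cast
        nlinarith)
  simp only [S5, if_true]
  simpa using this

theorem step1 {α δ τ c : ℝ} {X₀ : ℕ} (hz : ZW α δ τ c X₀) (hXX : X₀ ≤ X)
    (h : Stp X s v w Z) (hδ : (X : ℝ) ^ δ ≤ s 2) (hq : (20 * s 1) * (20 * s 3) ≤ (X : ℝ) ^ (δ * τ))
    (h0 : t 0 ∈ S5 (PP X) s v w 0 t) :
    c * Real.log X ^ (99 / 100 * α - 1) * ((dt v w).natAbs.totient / (dt v w : ℝ) ^ 2) ≤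
      ∑ n ∈ S5 (PP X) s v w 1 t, fw (PP X) α n / n := by
  obtain ⟨⟨a1, a2⟩, ⟨b1, b2⟩, -, -, -, a3, a4⟩ := st_sizes h.h1 h.hZ h.hb
  have hD := (bas_dt h.pos h.hb).1
  have hX1 : (1 : ℝ) ≤ X := by exact_mod_cast (by have := h.hX; omega : 1 ≤ X)
  obtain ⟨g1, g2, g3, g4⟩ := st0 h.pos h.hb h0
  have hpos : 0 < 3 * (dt v w * s 2 / s 3) := by
    have : (0 : ℝ) < dt v w := by exact_mod_cast hD
    have := h.pos 3
    have := h.pos 2
    positivity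
  obtain ⟨m1, -⟩ := mu_spec h.hb.c3 h.hb.c1
  have := hz X hXX (3 * (dt v w * s 2 / s 3)) (dt v w).natAbs (mu v w * t 0) (Fz (PP X) (t 0))
    (hδ.trans b1)
    (by linarith [h.pow (k := 2) (by norm_num)]) h.oddD
    (by rw [h.absD]; exact a4.trans hq)
    (by rw [Int.natAbs_of_nonneg hD.le]; exact IsCoprime.mul_left m1 g4)
    (by
      intro a ha
      obtain ⟨b1, b2, -⟩ := fz_mem.1 ha
      refine ⟨Nat.prime_of_mem_primeFactors b1, b2, fun hd => ?_⟩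
      have h5 : (a.1 : ℤ) ∣ dt v w := by
        have := Int.natCast_dvd_natCast.2 hd
        rwa [Int.natAbs_of_nonneg hD.le] at this
      have h6 : (a.1 : ℤ) ∣ (t 0 : ℤ) :=
        Int.natCast_dvd_natCast.2 (Nat.dvd_of_mem_primeFactors b1)
      have h7 := g4.isUnit_of_dvd' h6 h5
      exact (Nat.prime_iff_prime_int.1 (Nat.prime_of_mem_primeFactors b1)).not_isUnit h7)
    (by
      refine (fz_card' (PP X) (X := X) (k := 1) (dp_pos g3) ?_).trans ?_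
      · rw [pow_one]
        exact g2.trans (a2.trans (h.pow (by norm_num)))
      · have := h.logX
        push_cast
        nlinarith)
  simp only [S5, one_ne_zero, if_false, if_true]
  rw [h.absD] at this
  exact this

theorem step2 {α δ τ c : ℝ} {X₀ : ℕ} (hz : ZW α δ τ c X₀) (hXX : X₀ ≤ X) (hδτ : 0 ≤ δ * τ)
    (h : Stp X s v w Z) (hδ : (X : ℝ) ^ δ ≤ s 4)
    (h0 : t 0 ∈ S5 (PP X) s v w 0 t) (h1 : t 1 ∈ S5 (PP X) s v w 1 t) :
    c * Real.log X ^ (99 / 100 * α - 1) ≤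
      ∑ n ∈ S5 (PP X) s v w 2 t, fw (PP X) α n / n := by
  obtain ⟨⟨a1, a2⟩, ⟨b1, b2⟩, ⟨c1, c2⟩, -, -, a3, -⟩ := st_sizes h.h1 h.hZ h.hb
  have hD := (bas_dt h.pos h.hb).1
  have hX1 : (1 : ℝ) ≤ X := by exact_mod_cast (by have := h.hX; omega : 1 ≤ X)
  obtain ⟨g1, g2, g3, g4⟩ := st0 h.pos h.hb h0
  obtain ⟨k1, k2, k3, -, -⟩ := st1 h.pos h.hb h0 h1
  have hpos : 0 < dt v w * s 4 / s 1 := by
    have : (0 : ℝ) < dt v w := by exact_mod_cast hD
    have := h.pos 1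
    have := h.pos 4
    positivity
  have := hz X hXX (dt v w * s 4 / s 1) 1 0 (Fz (PP X) ((dt v w).natAbs * t 0 * t 1))
    (hδ.trans c1)
    (by linarith [h.pow (k := 2) (by norm_num)]) odd_one
    (by rw [Nat.cast_one]; exact Real.one_le_rpow hX1 hδτ)
    (by norm_num)
    (by
      intro a ha
      obtain ⟨b1, b2, -⟩ := fz_mem.1 ha
      exact ⟨Nat.prime_of_mem_primeFactors b1, b2,
        fun hd => (Nat.prime_of_mem_primeFactors b1).one_lt.ne' (Nat.dvd_one.1 hd)⟩)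
    (by
      refine (fz_card' (PP X) (X := X) (k := 1)
        (Nat.mul_pos (Nat.mul_pos (by simpa using hD.ne') (dp_pos g3)) (dp_pos k3)) ?_).trans ?_
      · rw [pow_one]
        push_cast
        rw [h.absD]
        calc (dt v w : ℝ) * t 0 * t 1 ≤ Z ^ 2 * Z ^ 2 * Z ^ 2 := by
              have hz := h.one
              gcongr
              · exact g2.trans a2
              · exact k2.trans b2
          _ = Z ^ 6 := by ring
          _ ≤ _ := h.pow (by norm_num)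
      · have := h.logX
        push_cast
        nlinarith)
  simp only [S5, OfNat.ofNat_ne_zero, OfNat.ofNat_ne_one, if_false, if_true]
  simpa using this

theorem step3 {δ c : ℝ} {X₀ : ℕ} (hz : XW δ c X₀) (hXX : X₀ ≤ X)
    (h : Stp X s v w Z) (hδ : (X : ℝ) ^ δ ≤ s 4) (hq : (20 * s 1) * (20 * s 3) ≤ (X : ℝ) ^ (δ / 2))
    (h0 : t 0 ∈ S5 (PP X) s v w 0 t) (h1 : t 1 ∈ S5 (PP X) s v w 1 t)
    (h2 : t 2 ∈ S5 (PP X) s v w 2 t) :
    c * (1 / (dt v w : ℝ)) ≤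
      ∑ n ∈ S5 (PP X) s v w 3 t, (n.totient : ℝ) / (n : ℝ) ^ 2 := by
  obtain ⟨⟨a1, a2⟩, ⟨b1, b2⟩, ⟨c1, c2⟩, ⟨d1, d2⟩, -, a3, a4⟩ := st_sizes h.h1 h.hZ h.hb
  have hD := (bas_dt h.pos h.hb).1
  have hX1 : (1 : ℝ) ≤ X := by exact_mod_cast (by have := h.hX; omega : 1 ≤ X)
  obtain ⟨g1, g2, g3, g4⟩ := st0 h.pos h.hb h0
  obtain ⟨k1, k2, k3, -, k5⟩ := st1 h.pos h.hb h0 h1
  obtain ⟨l1, l2, l3, l4⟩ := st2 h.pos h.hb h0 h1 h2
  have hpos : 0 < dt v w * s 4 / s 3 := by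
    have : (0 : ℝ) < dt v w := by exact_mod_cast hD
    have := h.pos 3
    have := h.pos 4
    positivity
  obtain ⟨m1, -⟩ := mu_spec h.hb.c3 h.hb.c1
  have := hz X hXX (dt v w * s 4 / s 3) (dt v w).natAbs (mu v w * t 2)
    (Fz (PP X) (t 0 * t 1 * t 2)) (hδ.trans d1)
    (by linarith [h.pow (k := 2) (by norm_num)]) h.oddD
    (by rw [h.absD]; exact a4.trans hq)
    (by
      rw [Int.natAbs_of_nonneg hD.le]
      exact IsCoprime.mul_left m1
        (IsCoprime.of_mul_right_left (IsCoprime.of_mul_right_left l4)))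
    (by
      intro a ha
      obtain ⟨b1, b2, -⟩ := fz_mem.1 ha
      have hp := Nat.prime_of_mem_primeFactors b1
      refine ⟨hp, b2, fun hd => ?_⟩
      have h5 : (a.1 : ℤ) ∣ dt v w := by
        have := Int.natCast_dvd_natCast.2 hd
        rwa [Int.natAbs_of_nonneg hD.le] at this
      have h6 := Nat.dvd_of_mem_primeFactors b1
      have hu := (Nat.prime_iff_prime_int.1 hp).not_isUnit
      rcases (Nat.Prime.dvd_mul hp).1 h6 with h7 | h7
      · rcases (Nat.Prime.dvd_mul hp).1 h7 with h8 | h8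
        · exact hu (g4.isUnit_of_dvd' (Int.natCast_dvd_natCast.2 h8) h5)
        · exact hu ((IsCoprime.of_mul_right_left k5).isUnit_of_dvd'
            (Int.natCast_dvd_natCast.2 h8) h5)
      · exact hu ((IsCoprime.of_mul_right_left (IsCoprime.of_mul_right_left l4)).isUnit_of_dvd'
            (Int.natCast_dvd_natCast.2 h7) h5))
    (by
      refine (fz_card' (PP X) (X := X) (k := 1)
        (Nat.mul_pos (Nat.mul_pos (dp_pos g3) (dp_pos k3)) (dp_pos l3)) ?_).trans ?_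
      · rw [pow_one]
        push_cast
        calc (t 0 : ℝ) * t 1 * t 2 ≤ Z ^ 2 * Z ^ 2 * Z ^ 2 := by
              have hz := h.one
              gcongr
              · exact g2.trans a2
              · exact k2.trans b2
              · exact l2.trans c2
          _ = Z ^ 6 := by ring
          _ ≤ _ := h.pow (by norm_num)
      · have := h.logX
        push_cast
        nlinarith)
  simp only [S5, show (3 : ℕ) ≠ 0 by norm_num, show (3 : ℕ) ≠ 1 by norm_num,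
      show (3 : ℕ) ≠ 2 by norm_num, if_false, if_true]
  rw [h.absD] at this
  exact this

theorem step4 {α δ τ c : ℝ} {X₀ : ℕ} (hz : ZW α δ τ c X₀) (hXX : X₀ ≤ X) (hδτ : 0 ≤ δ * τ)
    (h : Stp X s v w Z) (hδ : (X : ℝ) ^ δ ≤ s 0)
    (h0 : t 0 ∈ S5 (PP X) s v w 0 t) (h1 : t 1 ∈ S5 (PP X) s v w 1 t)
    (h2 : t 2 ∈ S5 (PP X) s v w 2 t) (h3 : t 3 ∈ S5 (PP X) s v w 3 t) :
    c * Real.log X ^ (99 / 100 * α - 1) ≤
      ∑ n ∈ S5 (PP X) s v w 4 t, fw (PP X) α n / n := by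
  obtain ⟨⟨a1, a2⟩, ⟨b1, b2⟩, ⟨c1, c2⟩, ⟨d1, d2⟩, e, a3, -⟩ := st_sizes h.h1 h.hZ h.hb
  have hD := (bas_dt h.pos h.hb).1
  have hX1 : (1 : ℝ) ≤ X := by exact_mod_cast (by have := h.hX; omega : 1 ≤ X)
  obtain ⟨g1, g2, g3, g4⟩ := st0 h.pos h.hb h0
  obtain ⟨k1, k2, k3, -, k5⟩ := st1 h.pos h.hb h0 h1
  obtain ⟨l1, l2, l3, l4⟩ := st2 h.pos h.hb h0 h1 h2
  obtain ⟨m1, m2, m3, m4, -⟩ := st3 h.pos h.hb h0 h1 h2 h3
  obtain ⟨⟨e1, e2⟩, -, -⟩ := e _ m1 m2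
  have hne := st_ne h.pos h.hb h0 h1 h2 h3
  have ht3 : 0 < t 3 := m3.pos
  have ht3r : (0 : ℝ) < t 3 := by exact_mod_cast ht3
  have hpos : 0 < t 3 * s 0 / s 1 := by
    have := h.pos 1
    have := h.pos 0
    positivity
  have := hz X hXX (t 3 * s 0 / s 1) 1 0
    (Fz (PP X) (t 3 * t 0 * t 1 * t 2 * ((t 0 * t 3 : ℤ) - t 1 * t 2).natAbs))
    (hδ.trans e1)
    (by linarith [h.pow (k := 3) (by norm_num)]) odd_one
    (by rw [Nat.cast_one]; exact Real.one_le_rpow hX1 hδτ)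
    (by norm_num)
    (by
      intro a ha
      obtain ⟨b1, b2, -⟩ := fz_mem.1 ha
      exact ⟨Nat.prime_of_mem_primeFactors b1, b2,
        fun hd => (Nat.prime_of_mem_primeFactors b1).one_lt.ne' (Nat.dvd_one.1 hd)⟩)
    (by
      refine (fz_card' (PP X) (X := X) (k := 1)
        (Nat.mul_pos (Nat.mul_pos (Nat.mul_pos (Nat.mul_pos ht3 (dp_pos g3)) (dp_pos k3))
          (dp_pos l3)) (Int.natAbs_pos.2 hne)) ?_).trans ?_
      · rw [pow_one, Nat.cast_mul, Nat.cast_natAbs]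
        push_cast
        have z0 : (t 0 : ℝ) ≤ Z ^ 2 := g2.trans a2
        have z1 : (t 1 : ℝ) ≤ Z ^ 2 := k2.trans b2
        have z2 : (t 2 : ℝ) ≤ Z ^ 2 := l2.trans c2
        have z3 : (t 3 : ℝ) ≤ Z ^ 2 := m2.trans d2
        have hz := h.one
        have habs : |(t 0 * t 3 : ℝ) - t 1 * t 2| ≤ Z ^ 4 := by
          rw [abs_le]
          have y1 : (t 0 : ℝ) * t 3 ≤ Z ^ 2 * Z ^ 2 := by gcongr
          have y2 : (t 1 : ℝ) * t 2 ≤ Z ^ 2 * Z ^ 2 := by gcongr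
          have y3 : (0 : ℝ) ≤ (t 0 : ℝ) * t 3 := by positivity
          have y4 : (0 : ℝ) ≤ (t 1 : ℝ) * t 2 := by positivity
          constructor <;> nlinarith
        calc (t 3 : ℝ) * t 0 * t 1 * t 2 * |(t 0 * t 3 : ℝ) - t 1 * t 2| ≤
              Z ^ 2 * Z ^ 2 * Z ^ 2 * Z ^ 2 * Z ^ 4 := by gcongr
          _ = Z ^ 12 := by ring
          _ ≤ _ := h.pow (by norm_num)
      · have := h.logX
        push_cast
        nlinarith)
  simp only [S5, show (4 : ℕ) ≠ 0 by norm_num, show (4 : ℕ) ≠ 1 by norm_num,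
      show (4 : ℕ) ≠ 2 by norm_num, show (4 : ℕ) ≠ 3 by norm_num, if_false, if_true]
  simpa using this

theorem step5 {α δ τ c : ℝ} {X₀ : ℕ} (hz : ZW α δ τ c X₀) (hXX : X₀ ≤ X)
    (h : Stp X s v w Z) (hδ : (X : ℝ) ^ δ ≤ s 0)
    (hq : (20 * s 1) * (20 * s 4) ≤ (X : ℝ) ^ (δ * τ))
    (h0 : t 0 ∈ S5 (PP X) s v w 0 t) (h1 : t 1 ∈ S5 (PP X) s v w 1 t)
    (h2 : t 2 ∈ S5 (PP X) s v w 2 t) (h3 : t 3 ∈ S5 (PP X) s v w 3 t)
    (h4 : t 4 ∈ S5 (PP X) s v w 4 t) :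
    c * Real.log X ^ (99 / 100 * α - 1) ≤
      ∑ n ∈ S5 (PP X) s v w 5 t, fw (PP X) α n / n * ((t 3 : ℝ) ^ 2 / ((t 3).totient : ℝ)) := by
  classical
  obtain ⟨⟨a1, a2⟩, ⟨b1, b2⟩, ⟨c1, c2⟩, ⟨d1, d2⟩, e, a3, -⟩ := st_sizes h.h1 h.hZ h.hb
  have hD := (bas_dt h.pos h.hb).1
  have hX1 : (1 : ℝ) ≤ X := by exact_mod_cast (by have := h.hX; omega : 1 ≤ X)
  obtain ⟨g1, g2, g3, g4⟩ := st0 h.pos h.hb h0
  obtain ⟨k1, k2, k3, -, k5⟩ := st1 h.pos h.hb h0 h1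
  obtain ⟨l1, l2, l3, l4⟩ := st2 h.pos h.hb h0 h1 h2
  obtain ⟨m1, m2, m3, m4, m5, m6, -, m8⟩ := st3 h.pos h.hb h0 h1 h2 h3
  obtain ⟨n1, n2, n3, n4⟩ := st4 h.pos h.hb h0 h1 h2 h3 h4
  obtain ⟨⟨e1, e2⟩, ⟨e3, e4⟩, e5⟩ := e _ m1 m2
  have ht3 : 0 < t 3 := m3.pos
  have ht3r : (0 : ℝ) < t 3 := by exact_mod_cast ht3
  have hpos : 0 < t 3 * s 0 / s 4 := by
    have := h.pos 4
    have := h.pos 0
    positivity
  obtain ⟨q1, -⟩ := mu_spec m8 h.hb.c1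
  rw [m6] at q1
  have hn43 : IsCoprime ((t 4 : ℕ) : ℤ) (t 3) :=
    IsCoprime.of_mul_right_left (IsCoprime.of_mul_right_left (IsCoprime.of_mul_right_left
      (IsCoprime.of_mul_right_left n4)))
  have hZ1 := h.one
  have hcardpos : 0 < (dt v w).natAbs * t 0 * t 1 * t 2 * t 4 :=
    Nat.mul_pos (Nat.mul_pos (Nat.mul_pos (Nat.mul_pos (by simpa using hD.ne') (dp_pos g3))
      (dp_pos k3)) (dp_pos l3)) (dp_pos n3)
  have := hz X hXX (t 3 * s 0 / s 4) (t 3) (mu (uu v w (t 2) (t 3)) w * t 4)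
    (Fz (PP X) ((dt v w).natAbs * t 0 * t 1 * t 2 * t 4) ∪
        Fr (PP X) (t 0) (t 2) (t 4 * dt v w))
    (hδ.trans e3)
    (by linarith [h.pow (k := 3) (by norm_num)]) m3
    (e5.trans hq)
    (IsCoprime.mul_left q1 hn43)
    (by
      intro a ha
      rcases Finset.mem_union.1 ha with ha | ha
      · obtain ⟨b1, b2, -⟩ := fz_mem.1 ha
        have hp := Nat.prime_of_mem_primeFactors b1
        refine ⟨hp, b2, fun hd => ?_⟩
        have hd' : (a.1 : ℤ) ∣ (t 3 : ℤ) := Int.natCast_dvd_natCast.2 hd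
        have h6 := Nat.dvd_of_mem_primeFactors b1
        have hu := (Nat.prime_iff_prime_int.1 hp).not_isUnit
        rcases (Nat.Prime.dvd_mul hp).1 h6 with h7 | h7
        · have h8 : (a.1 : ℤ) ∣ dt v w * t 0 * t 1 * t 2 := by
            have := Int.natCast_dvd_natCast.2 h7
            push_cast at this
            rwa [abs_of_pos hD] at this
          exact hu (m5.isUnit_of_dvd' hd' h8)
        · exact hu (hn43.isUnit_of_dvd' (Int.natCast_dvd_natCast.2 h7) hd')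
      · obtain ⟨b1, b2, -⟩ := fr_mem.1 ha
        have hp := Nat.prime_of_mem_primeFactors b1
        refine ⟨hp, b2, fun hd => ?_⟩
        have hd' : (a.1 : ℤ) ∣ (t 3 : ℤ) := Int.natCast_dvd_natCast.2 hd
        have h6 := Int.natCast_dvd_natCast.2 (Nat.dvd_of_mem_primeFactors b1)
        have hu := (Nat.prime_iff_prime_int.1 hp).not_isUnit
        have h30 : IsCoprime ((t 3 : ℕ) : ℤ) (t 0) :=
          IsCoprime.of_mul_right_right (IsCoprime.of_mul_right_left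
            (IsCoprime.of_mul_right_left m5))
        exact hu (h30.isUnit_of_dvd' hd' h6))
    (by
      have y1 : ((Fz (PP X) ((dt v w).natAbs * t 0 * t 1 * t 2 * t 4)).card : ℝ) ≤
          2 * (1 : ℕ) * Real.log X := by
        refine fz_card' (PP X) (X := X) (k := 1) hcardpos ?_
        rw [pow_one]
        push_cast
        rw [h.absD]
        calc (dt v w : ℝ) * t 0 * t 1 * t 2 * t 4 ≤ Z ^ 2 * Z ^ 2 * Z ^ 2 * Z ^ 2 * Z ^ 3 := by
              gcongr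
              · exact g2.trans a2
              · exact k2.trans b2
              · exact l2.trans c2
              · exact n2.trans e2
          _ = Z ^ 11 := by ring
          _ ≤ _ := h.pow (by norm_num)
      have y2 : ((Fr (PP X) (t 0) (t 2) (t 4 * dt v w)).card : ℝ) ≤ 2 * Real.log X := by
        refine (fr_card (PP X) _ _ (dp_pos g3)).trans ?_
        have : Real.log (t 0) ≤ Real.log X :=
          Real.log_le_log (by exact_mod_cast dp_pos g3)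
            (g2.trans (a2.trans (h.pow (by norm_num))))
        linarith
      have y3 : (((Fz (PP X) ((dt v w).natAbs * t 0 * t 1 * t 2 * t 4) ∪
        Fr (PP X) (t 0) (t 2) (t 4 * dt v w)).card : ℕ) : ℝ) ≤
        (Fz (PP X) ((dt v w).natAbs * t 0 * t 1 * t 2 * t 4)).card +
          (Fr (PP X) (t 0) (t 2) (t 4 * dt v w)).card := by
        exact_mod_cast Finset.card_union_le _ _
      have := h.logX
      push_cast at y1
      linarith)
  simp only [S5, show (5 : ℕ) ≠ 0 by norm_num, show (5 : ℕ) ≠ 1 by norm_num,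
      show (5 : ℕ) ≠ 2 by norm_num, show (5 : ℕ) ≠ 3 by norm_num,
      show (5 : ℕ) ≠ 4 by norm_num, if_false, if_true]
  rw [← Finset.sum_mul]
  have htot : (0 : ℝ) < (t 3).totient := by exact_mod_cast Nat.totient_pos.2 ht3
  have hm := mul_le_mul_of_nonneg_right this
    (by positivity : (0 : ℝ) ≤ (t 3 : ℝ) ^ 2 / ((t 3).totient : ℝ))
  refine le_trans (le_of_eq ?_) hm
  field_simp

end steps

end Pool.Agent.PENT
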