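import Pool.Agent.Lib_helper15.PENT.TDefs

/-!
# PENT (MP_892e4c_nt), part T: boxes (helper15)
-/

set_option autoImplicit false

namespace Pool.Agent.PENT

open Finset

theorem bx_mono {k l : ℕ} (hkl : k ≤ l) {s a b : ℝ} {u : ℤ × ℤ} (hs : 0 ≤ s) (ha : 0 ≤ a)
    (hb : 0 ≤ b) (h : Bx k s a b u) : Bx l s a b u := by
  obtain ⟨h1, h2, h3, h4⟩ := h
  have h5 : (101 / 100 : ℝ) ^ k ≤ (101 / 100 : ℝ) ^ l := pow_le_pow_right₀ (by norm_num) hkl
  exact ⟨h1, h2.trans (mul_le_mul_of_nonneg_right h5 (by positivity)), h3,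
    h4.trans (mul_le_mul_of_nonneg_right h5 (by positivity))⟩

/-- lower bound for the determinant of vectors in boxes -/
theorem bx_dt {k l : ℕ} (hkl : k + l ≤ 6) {s s' a b a' b' : ℝ} {u v : ℤ × ℤ} (hs : 0 < s)
    (hs' : 0 < s') (ha : 0 < a) (hb : 0 < b) (ha' : 0 < a') (hb' : 0 < b')
    (hu : Bx k s a b u) (hv : Bx l s' a' b' v) :
    s * s' * (a * b' - 1062 / 1000 * (b * a')) < (dt u v : ℝ) := by
  obtain ⟨h1, h2, h3, h4⟩ := hu
  obtain ⟨g1, g2, g3, g4⟩ := hv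
  have h5 : (101 / 100 : ℝ) ^ k * (101 / 100 : ℝ) ^ l ≤ 1062 / 1000 := by
    rw [← pow_add]
    calc (101 / 100 : ℝ) ^ (k + l) ≤ (101 / 100 : ℝ) ^ 6 := pow_le_pow_right₀ (by norm_num) hkl
      _ ≤ _ := by norm_num
  have e1 : (s * a) * (s' * b') < (u.1 : ℝ) * v.2 :=
    mul_lt_mul'' h1 g3 (by positivity) (by positivity)
  have e2 : (u.2 : ℝ) * v.1 ≤ ((101 / 100 : ℝ) ^ k * (s * b)) * ((101 / 100 : ℝ) ^ l * (s' * a')) :=
    mul_le_mul h4 g2 (by have : 0 < s' * a' := by positivity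
                         linarith) (by positivity)
  have e3 : ((101 / 100 : ℝ) ^ k * (s * b)) * ((101 / 100 : ℝ) ^ l * (s' * a')) ≤
      1062 / 1000 * ((s * b) * (s' * a')) := by
    calc _ = ((101 / 100 : ℝ) ^ k * (101 / 100 : ℝ) ^ l) * ((s * b) * (s' * a')) := by ring
      _ ≤ _ := mul_le_mul_of_nonneg_right h5 (by positivity)
  have e4 : (dt u v : ℝ) = (u.1 : ℝ) * v.2 - (u.2 : ℝ) * v.1 := by
    simp only [dt]; push_cast; ring
  rw [e4]
  nlinarith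

/-- upper bound for the determinant of vectors in boxes -/
theorem bx_dt_upp {k l : ℕ} (hkl : k + l ≤ 6) {s s' a b a' b' : ℝ} {u v : ℤ × ℤ} (hs : 0 < s)
    (hs' : 0 < s') (ha : 0 < a) (hb : 0 < b) (ha' : 0 < a') (hb' : 0 < b')
    (hu : Bx k s a b u) (hv : Bx l s' a' b' v) :
    (dt u v : ℝ) < s * s' * (1062 / 1000 * (a * b') - b * a') := by
  obtain ⟨h1, h2, h3, h4⟩ := hu
  obtain ⟨g1, g2, g3, g4⟩ := hv
  have h5 : (101 / 100 : ℝ) ^ k * (101 / 100 : ℝ) ^ l ≤ 1062 / 1000 := by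
    rw [← pow_add]
    calc (101 / 100 : ℝ) ^ (k + l) ≤ (101 / 100 : ℝ) ^ 6 := pow_le_pow_right₀ (by norm_num) hkl
      _ ≤ _ := by norm_num
  have e1 : (s * b) * (s' * a') < (u.2 : ℝ) * v.1 :=
    mul_lt_mul'' h3 g1 (by positivity) (by positivity)
  have e2 : (u.1 : ℝ) * v.2 ≤ ((101 / 100 : ℝ) ^ k * (s * a)) * ((101 / 100 : ℝ) ^ l * (s' * b')) :=
    mul_le_mul h2 g4 (by have : 0 < s' * b' := by positivity
                         linarith) (by positivity)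
  have e3 : ((101 / 100 : ℝ) ^ k * (s * a)) * ((101 / 100 : ℝ) ^ l * (s' * b')) ≤
      1062 / 1000 * ((s * a) * (s' * b')) := by
    calc _ = ((101 / 100 : ℝ) ^ k * (101 / 100 : ℝ) ^ l) * ((s * a) * (s' * b')) := by ring
      _ ≤ _ := mul_le_mul_of_nonneg_right h5 (by positivity)
  have e4 : (dt u v : ℝ) = (u.1 : ℝ) * v.2 - (u.2 : ℝ) * v.1 := by
    simp only [dt]; push_cast; ring
  rw [e4]
  nlinarith

/-- the new vector is in its box -/
theorem bx_uu {k : ℕ} {s s' a b a' b' : ℝ} {v w : ℤ × ℤ} (hs : 0 < s) (hs' : 0 < s')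
    (ha : 0 < a) (hb : 0 < b) (ha' : 0 < a') (hb' : 0 < b')
    (hv : Bx k s a b v) (hw : Bx k s' a' b' w) (hΔ : 0 < dt v w) {e f : ℤ} (hi : Int2 v w e f)
    {Z κ κ' : ℝ} (hZ : 0 < Z) (hκ : 0 < κ) (hκ' : 0 < κ')
    (he1 : κ * (dt v w * Z / s') < (e : ℝ)) (he2 : (e : ℝ) ≤ 101 / 100 * (κ * (dt v w * Z / s')))
    (hf1 : κ' * (dt v w * Z / s) < (f : ℝ)) (hf2 : (f : ℝ) ≤ 101 / 100 * (κ' * (dt v w * Z / s))) :
    Bx (k + 1) Z (κ * a' + κ' * a) (κ * b' + κ' * b) (uu v w e f) := by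
  obtain ⟨h1, h2, h3, h4⟩ := hv
  obtain ⟨g1, g2, g3, g4⟩ := hw
  obtain ⟨i1, i2⟩ := uu_spec1 hi
  have hD : (0 : ℝ) < dt v w := by exact_mod_cast hΔ
  have j1 : (dt v w : ℝ) * (uu v w e f).1 = e * w.1 + f * v.1 := by exact_mod_cast i1
  have j2 : (dt v w : ℝ) * (uu v w e f).2 = e * w.2 + f * v.2 := by exact_mod_cast i2
  have he0 : 0 < κ * (dt v w * Z / s') := by positivity
  have hf0 : 0 < κ' * (dt v w * Z / s) := by positivity
  have aux : ∀ (x y m n : ℝ), 0 < m → 0 < n → s' * m < x → x ≤ (101 / 100 : ℝ) ^ k * (s' * m) →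
      s * n < y → y ≤ (101 / 100 : ℝ) ^ k * (s * n) →
      dt v w * (Z * (κ * m + κ' * n)) < e * x + f * y ∧
      e * x + f * y ≤ dt v w * ((101 / 100 : ℝ) ^ (k + 1) * (Z * (κ * m + κ' * n))) := by
    intro x y m n hm hn hx1 hx2 hy1 hy2
    have hx0 : 0 < s' * m := by positivity
    have hy0 : 0 < s * n := by positivity
    constructor
    · have a1 : (κ * (dt v w * Z / s')) * (s' * m) < e * x :=
        mul_lt_mul'' he1 hx1 he0.le hx0.le
      have a2 : (κ' * (dt v w * Z / s)) * (s * n) < f * y :=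
        mul_lt_mul'' hf1 hy1 hf0.le hy0.le
      have a3 : (κ * (dt v w * Z / s')) * (s' * m) + (κ' * (dt v w * Z / s)) * (s * n) =
          dt v w * (Z * (κ * m + κ' * n)) := by field_simp
      linarith
    · have a1 : e * x ≤ (101 / 100 * (κ * (dt v w * Z / s'))) * ((101 / 100 : ℝ) ^ k * (s' * m)) :=
        mul_le_mul he2 hx2 (by linarith) (by positivity)
      have a2 : f * y ≤ (101 / 100 * (κ' * (dt v w * Z / s))) * ((101 / 100 : ℝ) ^ k * (s * n)) :=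
        mul_le_mul hf2 hy2 (by linarith) (by positivity)
      have a3 : (101 / 100 * (κ * (dt v w * Z / s'))) * ((101 / 100 : ℝ) ^ k * (s' * m)) +
          (101 / 100 * (κ' * (dt v w * Z / s))) * ((101 / 100 : ℝ) ^ k * (s * n)) =
          dt v w * ((101 / 100 : ℝ) ^ (k + 1) * (Z * (κ * m + κ' * n))) := by
        rw [pow_succ]; field_simp
      linarith
  obtain ⟨b1, b2⟩ := aux _ _ a' a ha' ha g1 g2 h1 h2
  obtain ⟨b3, b4⟩ := aux _ _ b' b hb' hb g3 g4 h3 h4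
  rw [← j1] at b1 b2
  rw [← j2] at b3 b4
  exact ⟨lt_of_mul_lt_mul_left b1 hD.le, le_of_mul_le_mul_left b2 hD,
    lt_of_mul_lt_mul_left b3 hD.le, le_of_mul_le_mul_left b4 hD⟩

/-- dependence of the choices on the earlier entries -/
theorem s5_dep (P : ℝ) (s : Fin 5 → ℝ) (v w : ℤ × ℤ) (j : ℕ) (t t' : ℕ → ℕ)
    (h : ∀ i < j, t i = t' i) : S5 P s v w j t = S5 P s v w j t' := by
  unfold S5
  by_cases h0 : j = 0
  · simp [h0]
  by_cases h1 : j = 1
  · simp only [h1, one_ne_zero, if_false, if_true]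
    rw [h 0 (by omega)]
  by_cases h2 : j = 2
  · simp only [h2, OfNat.ofNat_ne_zero, OfNat.ofNat_ne_one, if_false, if_true]
    rw [h 0 (by omega), h 1 (by omega)]
  by_cases h3 : j = 3
  · subst h3
    simp only [show (3 : ℕ) ≠ 0 by norm_num, show (3 : ℕ) ≠ 1 by norm_num,
      show (3 : ℕ) ≠ 2 by norm_num, if_false, if_true]
    rw [h 0 (by omega), h 1 (by omega), h 2 (by omega)]
  by_cases h4 : j = 4
  · subst h4
    simp only [show (4 : ℕ) ≠ 0 by norm_num, show (4 : ℕ) ≠ 1 by norm_num,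
      show (4 : ℕ) ≠ 2 by norm_num, show (4 : ℕ) ≠ 3 by norm_num, if_false, if_true]
    rw [h 0 (by omega), h 1 (by omega), h 2 (by omega), h 3 (by omega)]
  by_cases h5 : j = 5
  · subst h5
    simp only [show (5 : ℕ) ≠ 0 by norm_num, show (5 : ℕ) ≠ 1 by norm_num,
      show (5 : ℕ) ≠ 2 by norm_num, show (5 : ℕ) ≠ 3 by norm_num,
      show (5 : ℕ) ≠ 4 by norm_num, if_false, if_true]
    rw [h 0 (by omega), h 1 (by omega), h 2 (by omega), h 3 (by omega), h 4 (by omega)]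
  · rw [if_neg h0, if_neg h1, if_neg h2, if_neg h3, if_neg h4, if_neg h5,
      if_neg h0, if_neg h1, if_neg h2, if_neg h3, if_neg h4, if_neg h5]

theorem w5_dep (P : ℝ) (al : Fin 5 → ℝ) (j : ℕ) (t t' : ℕ → ℕ)
    (h : ∀ i < j, t i = t' i) : w5 P al j t = w5 P al j t' := by
  funext n
  unfold w5
  by_cases h5 : j = 5
  · subst h5
    rw [h 3 (by omega)]
  · simp only [h5, if_false]

theorem fw_nonneg (P : ℝ) {α : ℝ} (h : 0 ≤ α) (n : ℕ) : 0 ≤ fw P α n := by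
  unfold fw
  split_ifs
  · positivity
  · exact le_rfl

theorem w5_nonneg (P : ℝ) {al : Fin 5 → ℝ} (h : ∀ j, 0 ≤ al j) (j : ℕ) (t : ℕ → ℕ) (n : ℕ) :
    0 ≤ w5 P al j t n := by
  unfold w5
  split_ifs <;> first
    | exact le_rfl
    | exact div_nonneg (fw_nonneg P (h _) n) (Nat.cast_nonneg _)
    | positivity
    | exact mul_nonneg (div_nonneg (fw_nonneg P (h _) n) (Nat.cast_nonneg _)) (by positivity)

end Pool.Agent.PENT
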