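import Pool.Agent.Lib_helper15.PENT.TMain
import Pool.Agent.Lib_helper8.PENT.YFin

/-!
# PENT (MP_892e4c_nt): the lower bound of the mass (helper15)
-/

set_option autoImplicit false

namespace Pool.Agent.PENT

/-- LOWER BOUND of the mass -/
theorem lower (κ : ℝ) (hκ : 0 < κ) : ∃ p : Par, p.Ok κ ∧ ∃ t₁ : ℝ, 0 < t₁ ∧
    ∀ t : ℝ, 0 < t → t ≤ t₁ → ∃ c : ℝ, 0 < c ∧ ∃ X₀ : ℕ, ∀ X ≥ X₀,
      c * X * Real.log X ^ (-(5 / 2) : ℝ) ≤ ∑ τ ∈ (p.at' t).T X, (p.at' t).w X τ :=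
  lower_final y_lower κ hκ

end Pool.Agent.PENT
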