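import Mathlib

/-!
# PENT (MP_892e4c_nt), part T: nested sums (helper15)

Sequences `t : ℕ → ℕ` of length `m` (zero from `m` on) chosen one entry after the other, the
admissible `j`-th entries `S j t` depending on the earlier ones.
-/

set_option autoImplicit false

namespace Pool.Agent.PENT

open Finset

/-- the admissible sequences of length `m` -/
noncomputable def TT (S : ℕ → (ℕ → ℕ) → Finset ℕ) : ℕ → Finset (ℕ → ℕ)
  | 0 => {fun _ => 0}
  | m + 1 => by
      classical
      exact (TT S m).biUnion (fun t => (S m t).image (fun n => Function.update t m n))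

theorem TT_succ_mem {S : ℕ → (ℕ → ℕ) → Finset ℕ} {m : ℕ} {t : ℕ → ℕ} :
    t ∈ TT S (m + 1) ↔ ∃ s ∈ TT S m, ∃ n ∈ S m s, Function.update s m n = t := by
  classical
  simp only [TT, Finset.mem_biUnion, Finset.mem_image]

theorem TT_zero_of_le {S : ℕ → (ℕ → ℕ) → Finset ℕ} {m : ℕ} {t : ℕ → ℕ} (h : t ∈ TT S m) :
    ∀ j, m ≤ j → t j = 0 := by
  induction m generalizing t with
  | zero =>
    intro j _
    simp only [TT, Finset.mem_singleton] at h
    rw [h]
  | succ m ih =>
    intro j hj
    obtain ⟨s, hs, n, hn, rfl⟩ := TT_succ_mem.1 h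
    rw [Function.update_of_ne (by omega)]
    exact ih hs j (by omega)

/-- the entries: `S` depends only on the earlier entries -/
theorem TT_mem {S : ℕ → (ℕ → ℕ) → Finset ℕ}
    (hS : ∀ j, ∀ t t' : ℕ → ℕ, (∀ i < j, t i = t' i) → S j t = S j t') {m : ℕ} {t : ℕ → ℕ}
    (h : t ∈ TT S m) : ∀ j < m, t j ∈ S j t := by
  induction m generalizing t with
  | zero => intro j hj; omega
  | succ m ih =>
    intro j hj
    obtain ⟨s, hs, n, hn, rfl⟩ := TT_succ_mem.1 h
    rcases Nat.lt_succ_iff_lt_or_eq.1 hj with h1 | h1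
    · rw [Function.update_of_ne (by omega)]
      have h2 := ih hs j h1
      rw [hS j (Function.update s m n) s
        (fun i hi => by rw [Function.update_of_ne (by omega)])]
      exact h2
    · subst h1
      rw [Function.update_self]
      rw [hS j (Function.update s j n) s
        (fun i hi => by rw [Function.update_of_ne (by omega)])]
      exact hn

/-- the initial segments of an admissible sequence -/
theorem TT_init {S : ℕ → (ℕ → ℕ) → Finset ℕ} {m : ℕ} {t : ℕ → ℕ}
    (h : t ∈ TT S m) : ∀ j ≤ m, ∃ s ∈ TT S j, ∀ i < j, s i = t i := by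
  induction m generalizing t with
  | zero =>
    intro j hj
    obtain rfl : j = 0 := by omega
    exact ⟨t, h, fun _ _ => rfl⟩
  | succ m ih =>
    intro j hj
    rcases Nat.eq_or_lt_of_le hj with h1 | h1
    · subst h1; exact ⟨t, h, fun _ _ => rfl⟩
    · obtain ⟨s, hs, n, hn, rfl⟩ := TT_succ_mem.1 h
      obtain ⟨s', hs', h2⟩ := ih hs j (by omega)
      exact ⟨s', hs', fun i hi => by rw [h2 i hi, Function.update_of_ne (by omega)]⟩

/-- sums over sequences of length `m + 1` -/
theorem TT_sum_succ {S : ℕ → (ℕ → ℕ) → Finset ℕ} (m : ℕ) (f : (ℕ → ℕ) → ℝ) :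
    ∑ t ∈ TT S (m + 1), f t = ∑ s ∈ TT S m, ∑ n ∈ S m s, f (Function.update s m n) := by
  classical
  have h1 : TT S (m + 1) =
      (TT S m).biUnion (fun t => (S m t).image (fun n => Function.update t m n)) := by
    simp only [TT]
  rw [h1, Finset.sum_biUnion]
  · apply Finset.sum_congr rfl
    intro s hs
    rw [Finset.sum_image]
    intro a _ b _ hab
    have := congrFun hab m
    simpa using this
  · intro s hs s' hs' hne
    rw [Function.onFun, Finset.disjoint_left]
    intro t ht ht'
    obtain ⟨n, _, rfl⟩ := Finset.mem_image.1 ht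
    obtain ⟨n', _, h2⟩ := Finset.mem_image.1 ht'
    apply hne
    funext j
    by_cases hj : j = m
    · subst hj
      rw [TT_zero_of_le hs j le_rfl, TT_zero_of_le hs' j le_rfl]
    · have := congrFun h2 j
      rw [Function.update_of_ne hj, Function.update_of_ne hj] at this
      exact this.symm

/-- the lower bound for nested sums -/
theorem TT_sum_ge {S : ℕ → (ℕ → ℕ) → Finset ℕ} (w : ℕ → (ℕ → ℕ) → ℕ → ℝ) (c : ℕ → ℝ)
    (hwd : ∀ j, ∀ t t' : ℕ → ℕ, (∀ i < j, t i = t' i) → w j t = w j t')
    (hw : ∀ j t n, 0 ≤ w j t n) (hc : ∀ j, 0 ≤ c j) (m : ℕ)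
    (h : ∀ j < m, ∀ t ∈ TT S j, c j ≤ ∑ n ∈ S j t, w j t n) :
    ∏ j ∈ range m, c j ≤ ∑ t ∈ TT S m, ∏ j ∈ range m, w j t (t j) := by
  induction m with
  | zero => simp [TT]
  | succ m ih =>
    rw [TT_sum_succ, Finset.prod_range_succ]
    have h1 : ∀ s ∈ TT S m, (∏ j ∈ range m, w j s (s j)) * c m ≤
        ∑ n ∈ S m s, ∏ j ∈ range (m + 1),
          w j (Function.update s m n) (Function.update s m n j) := by
      intro s hs
      have h2 : ∀ n ∈ S m s, ∏ j ∈ range (m + 1),
          w j (Function.update s m n) (Function.update s m n j) =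
          (∏ j ∈ range m, w j s (s j)) * w m s n := by
        intro n _
        rw [Finset.prod_range_succ, Function.update_self]
        congr 1
        · apply Finset.prod_congr rfl
          intro j hj
          have hj' := Finset.mem_range.1 hj
          rw [Function.update_of_ne (by omega)]
          rw [hwd j (Function.update s m n) s
            (fun i hi => by rw [Function.update_of_ne (by omega)])]
        · rw [hwd m (Function.update s m n) s
            (fun i hi => by rw [Function.update_of_ne (by omega)])]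
      rw [Finset.sum_congr rfl h2, ← Finset.mul_sum]
      exact mul_le_mul_of_nonneg_left (h m (Nat.lt_succ_self m) s hs)
        (Finset.prod_nonneg (fun j _ => hw j _ _))
    calc (∏ j ∈ range m, c j) * c m
        ≤ (∑ t ∈ TT S m, ∏ j ∈ range m, w j t (t j)) * c m :=
          mul_le_mul_of_nonneg_right (ih (fun j hj => h j (by omega))) (hc m)
      _ = ∑ t ∈ TT S m, (∏ j ∈ range m, w j t (t j)) * c m := by rw [Finset.sum_mul]
      _ ≤ _ := Finset.sum_le_sum h1

end Pool.Agent.PENT
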