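import Pool.Agent.Lib_helper97.PENT.Defs

/-!
# PENT (MP_892e4c_nt), part T: sums in windows (helper15)
-/

set_option autoImplicit false

namespace Pool.Agent.PENT

open Finset Filter

open Classical in
/-- the integers of `(D, (1 + θ) D]` in a progression, avoiding the residues of `F` -/
noncomputable def Pset (θ D : ℝ) (q : ℕ) (r : ℤ) (F : Finset (ℕ × ℤ)) : Finset ℕ :=
  (Finset.Icc 1 ⌊(1 + θ) * D⌋₊).filter (fun n : ℕ => D < (n : ℝ) ∧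
      (q : ℤ) ∣ (n : ℤ) - r ∧ ∀ a ∈ F, ¬ (a.1 : ℤ) ∣ (n : ℤ) - a.2)

theorem mem_Pset {θ D : ℝ} {q : ℕ} {r : ℤ} {F : Finset (ℕ × ℤ)} {n : ℕ} (hD : 0 ≤ D)
    (hθ : 0 ≤ θ) :
    n ∈ Pset θ D q r F ↔ D < (n : ℝ) ∧ (n : ℝ) ≤ (1 + θ) * D ∧ (q : ℤ) ∣ (n : ℤ) - r ∧
      ∀ a ∈ F, ¬ (a.1 : ℤ) ∣ (n : ℤ) - a.2 := by
  classical
  unfold Pset
  rw [Finset.mem_filter, Finset.mem_Icc]
  have h0 : 0 ≤ (1 + θ) * D := by positivity
  constructor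
  · rintro ⟨⟨h1, h2⟩, h3, h4, h5⟩
    exact ⟨h3, (Nat.le_floor_iff h0).1 h2, h4, h5⟩
  · rintro ⟨h3, h2, h4, h5⟩
    refine ⟨⟨?_, (Nat.le_floor_iff h0).2 h2⟩, h3, h4, h5⟩
    have : (0 : ℝ) < n := lt_of_le_of_lt hD h3
    exact_mod_cast this

/-- the statement (ZS) -/
def ZSS (θ α : ℝ) : Prop :=
  ∃ c τ D₀ : ℝ, 0 < c ∧ 0 < τ ∧
    ∀ (D P : ℝ) (q : ℕ) (r : ℤ) (F : Finset (ℕ × ℤ)), D₀ ≤ D → Real.log D ^ 20 ≤ P →
    Real.log P ≤ Real.log D ^ (1 / 2 : ℝ) → Odd q → (q : ℝ) ≤ D ^ τ → IsCoprime r (q : ℤ) →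
    (∀ a ∈ F, a.1.Prime ∧ P < (a.1 : ℝ) ∧ ¬ a.1 ∣ q) → (F.card : ℝ) ≤ Real.log D ^ 2 →
    c * (D / q * (q.totient / q)) * Real.log P ^ (-α) * Real.log D ^ (α - 1) ≤
      ∑ n ∈ Pset θ D q r F, fw P α n

/-- the statement (XS) -/
def XSS (θ : ℝ) : Prop :=
  ∃ c D₀ : ℝ, 0 < c ∧
    ∀ (D P : ℝ) (q : ℕ) (r : ℤ) (F : Finset (ℕ × ℤ)), D₀ ≤ D → Real.log D ^ 20 ≤ P → Odd q →
    (q : ℝ) ≤ D ^ (1 / 2 : ℝ) → IsCoprime r (q : ℤ) →
    (∀ a ∈ F, a.1.Prime ∧ P < (a.1 : ℝ) ∧ ¬ a.1 ∣ q) → (F.card : ℝ) ≤ Real.log D ^ 2 →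
    c * (D / q) ≤ ∑ n ∈ (Finset.Icc 1 ⌊(1 + θ) * D⌋₊).filter (fun n : ℕ => D < (n : ℝ) ∧ Odd n ∧
      (q : ℤ) ∣ (n : ℤ) - r ∧ ∀ a ∈ F, ¬ (a.1 : ℤ) ∣ (n : ℤ) - a.2), (n.totient : ℝ) / n

theorem tw_log_PP (X : ℕ) : Real.log (PP X) = Real.log X ^ (1 / 100 : ℝ) := by
  unfold PP; rw [Real.log_exp]

/-- the conditions for large `X` -/
theorem tw_large (δ D₀ : ℝ) (hδ : 0 < δ) : ∃ X₀ : ℕ, ∀ X ≥ X₀, ∀ D : ℝ, (X : ℝ) ^ δ ≤ D →
    D ≤ X → D₀ ≤ D ∧ 1 ≤ D ∧ 0 < Real.log D ∧ Real.log D ≤ Real.log X ∧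
      δ * Real.log X ≤ Real.log D ∧ Real.log D ^ 20 ≤ PP X ∧
      Real.log (PP X) ≤ Real.log D ^ (1 / 2 : ℝ) ∧ 100 * Real.log X ≤ Real.log D ^ 2 := by
  have t1 : Tendsto (fun X : ℕ => Real.log (X : ℝ)) atTop atTop :=
    Real.tendsto_log_atTop.comp tendsto_natCast_atTop_atTop
  have t2 : Tendsto (fun X : ℕ => (X : ℝ) ^ δ) atTop atTop :=
    (tendsto_rpow_atTop hδ).comp tendsto_natCast_atTop_atTop
  -- `y ^ 2000 ≤ exp y`
  have t3 : ∀ᶠ y : ℝ in atTop, y ^ 2000 ≤ Real.exp y := by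
    have := (Real.isLittleO_pow_exp_atTop (n := 2000)).bound (c := 1) one_pos
    filter_upwards [this, eventually_ge_atTop 0] with y hy h0
    rw [one_mul, Real.norm_of_nonneg (by positivity), Real.norm_of_nonneg (by positivity)] at hy
    exact hy
  have t4 : Tendsto (fun X : ℕ => Real.log (X : ℝ) ^ (1 / 100 : ℝ)) atTop atTop :=
    (tendsto_rpow_atTop (by norm_num)).comp t1
  have t5 : Tendsto (fun X : ℕ => Real.log (X : ℝ) ^ (49 / 100 : ℝ)) atTop atTop :=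
    (tendsto_rpow_atTop (by norm_num)).comp t1
  have e1 := t1.eventually_ge_atTop (100 / δ ^ 2 + 1)
  have e2 := t2.eventually_ge_atTop (max D₀ 1 + 1)
  have e3 := t4.eventually t3
  have e5 := t5.eventually_ge_atTop ((δ ^ (1 / 2 : ℝ))⁻¹)
  have e6 := (tendsto_natCast_atTop_atTop (R := ℝ)).eventually_ge_atTop 3
  obtain ⟨X₀, hX₀⟩ := eventually_atTop.1 (e1.and (e2.and (e3.and (e5.and e6))))
  refine ⟨X₀, fun X hX D hD1 hD2 => ?_⟩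
  obtain ⟨a1, a2, a3, a5, a6⟩ := hX₀ X hX
  have hX0 : (0 : ℝ) < X := by linarith
  have h1 : D₀ ≤ D := by
    have := le_max_left D₀ 1
    linarith
  have h2 : 1 < D := by
    have := le_max_right D₀ 1
    linarith
  have hlD : 0 < Real.log D := Real.log_pos h2
  have hlDX : Real.log D ≤ Real.log X := Real.log_le_log (by linarith) hD2
  have hlX : 0 < Real.log X := by linarith
  have h3 : δ * Real.log X ≤ Real.log D := by
    rw [← Real.log_rpow hX0]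
    exact Real.log_le_log (Real.rpow_pos_of_pos hX0 _) hD1
  refine ⟨h1, h2.le, hlD, hlDX, h3, ?_, ?_, ?_⟩
  · calc Real.log D ^ 20 ≤ Real.log X ^ 20 := pow_le_pow_left₀ hlD.le hlDX 20
      _ = (Real.log X ^ (1 / 100 : ℝ)) ^ 2000 := by
          rw [← Real.rpow_natCast (Real.log X ^ (1 / 100 : ℝ)) 2000, ← Real.rpow_mul hlX.le,
            ← Real.rpow_natCast (Real.log X) 20]
          congr 1; norm_num
      _ ≤ _ := a3
  · rw [tw_log_PP]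
    calc Real.log X ^ (1 / 100 : ℝ) = Real.log X ^ (1 / 100 : ℝ) * 1 := by ring
      _ ≤ Real.log X ^ (1 / 100 : ℝ) * (δ ^ (1 / 2 : ℝ) * Real.log X ^ (49 / 100 : ℝ)) := by
          apply mul_le_mul_of_nonneg_left _ (Real.rpow_nonneg hlX.le _)
          have hd : 0 < δ ^ (1 / 2 : ℝ) := Real.rpow_pos_of_pos hδ _
          calc (1 : ℝ) = δ ^ (1 / 2 : ℝ) * (δ ^ (1 / 2 : ℝ))⁻¹ := by
                rw [mul_inv_cancel₀ hd.ne']
            _ ≤ _ := mul_le_mul_of_nonneg_left a5 hd.le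
      _ = δ ^ (1 / 2 : ℝ) * Real.log X ^ (1 / 2 : ℝ) := by
          rw [mul_left_comm, ← Real.rpow_add hlX]; norm_num
      _ = (δ * Real.log X) ^ (1 / 2 : ℝ) := by rw [Real.mul_rpow hδ.le hlX.le]
      _ ≤ Real.log D ^ (1 / 2 : ℝ) :=
          Real.rpow_le_rpow (by positivity) h3 (by norm_num)
  · have h4 : (δ * Real.log X) ^ 2 ≤ Real.log D ^ 2 :=
      pow_le_pow_left₀ (by positivity) h3 2
    have h5 : 100 ≤ δ ^ 2 * Real.log X := by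
      have : 100 / δ ^ 2 ≤ Real.log X := by linarith
      rw [div_le_iff₀ (by positivity)] at this
      linarith
    nlinarith

/-- (ZS) with weights `1/n` and all conditions in terms of `X` -/
theorem zsw {θ α : ℝ} (hθ : 0 < θ) (hθ1 : θ ≤ 1) (hα : 0 < α) (hα1 : α ≤ 1) (hz : ZSS θ α) :
    ∃ τ : ℝ, 0 < τ ∧ ∀ δ : ℝ, 0 < δ → ∃ c : ℝ, 0 < c ∧ ∃ X₀ : ℕ, ∀ X ≥ X₀,
      ∀ (D : ℝ) (q : ℕ) (r : ℤ) (F : Finset (ℕ × ℤ)), (X : ℝ) ^ δ ≤ D → D ≤ X → Odd q →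
      (q : ℝ) ≤ (X : ℝ) ^ (δ * τ) → IsCoprime r (q : ℤ) →
      (∀ a ∈ F, a.1.Prime ∧ PP X < (a.1 : ℝ) ∧ ¬ a.1 ∣ q) →
      (F.card : ℝ) ≤ 100 * Real.log X →
      c * Real.log X ^ (99 / 100 * α - 1) * (q.totient / (q : ℝ) ^ 2) ≤
        ∑ n ∈ Pset θ D q r F, fw (PP X) α n / n := by
  obtain ⟨c, τ, D₀, hc, hτ, H⟩ := hz
  refine ⟨τ, hτ, fun δ hδ => ?_⟩
  obtain ⟨X₀, hX₀⟩ := tw_large δ D₀ hδ
  refine ⟨c / 2, by positivity, max X₀ 3, fun X hX D q r F hD1 hD2 hq hqX hr hF hFc => ?_⟩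
  obtain ⟨g1, g2, g3, g4, g5, g6, g7, g8⟩ := hX₀ X (le_trans (le_max_left _ _) hX) D hD1 hD2
  have hX0 : (0 : ℝ) < X := by
    have : 3 ≤ X := le_trans (le_max_right _ _) hX
    exact_mod_cast (by omega : 0 < X)
  have hD0 : 0 < D := by linarith
  have hlX : 0 < Real.log X := by linarith
  have hq0 : (0 : ℝ) < q := by
    rcases hq with ⟨k, hk⟩
    exact_mod_cast (by omega : 0 < q)
  have hqD : (q : ℝ) ≤ D ^ τ := by
    refine hqX.trans ?_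
    rw [Real.rpow_mul hX0.le]
    exact Real.rpow_le_rpow (Real.rpow_nonneg hX0.le _) hD1 hτ.le
  have h1 := H D (PP X) q r F g1 g6 g7 hq hqD hr hF (hFc.trans g8)
  have h2 : ∑ n ∈ Pset θ D q r F, fw (PP X) α n / (2 * D) ≤
      ∑ n ∈ Pset θ D q r F, fw (PP X) α n / n := by
    apply Finset.sum_le_sum
    intro n hn
    rw [mem_Pset hD0.le hθ.le] at hn
    have hn0 : (0 : ℝ) < n := by linarith [hn.1]
    apply div_le_div_of_nonneg_left _ hn0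
    · nlinarith [hn.2.1]
    · unfold fw
      split_ifs
      · positivity
      · exact le_rfl
  refine le_trans ?_ h2
  rw [← Finset.sum_div, le_div_iff₀ (by positivity)]
  refine le_trans ?_ h1
  rw [tw_log_PP, ← Real.rpow_mul hlX.le]
  have h3 : Real.log X ^ (α - 1) ≤ Real.log D ^ (α - 1) :=
    Real.rpow_le_rpow_of_nonpos g3 g4 (by linarith)
  have h4 : Real.log X ^ (99 / 100 * α - 1) =
      Real.log X ^ (1 / 100 * -α) * Real.log X ^ (α - 1) := by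
    rw [← Real.rpow_add hlX]; congr 1; ring
  rw [h4]
  have h5 : 0 ≤ Real.log X ^ (1 / 100 * -α) := Real.rpow_nonneg hlX.le _
  have h6 : 0 ≤ c * (D / q * (q.totient / q)) := by positivity
  calc c / 2 * (Real.log X ^ (1 / 100 * -α) * Real.log X ^ (α - 1)) *
        (q.totient / (q : ℝ) ^ 2) * (2 * D)
      = c * (D / q * (q.totient / q)) * Real.log X ^ (1 / 100 * -α) * Real.log X ^ (α - 1) := by
        field_simp
    _ ≤ _ := mul_le_mul_of_nonneg_left h3 (mul_nonneg h6 h5)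

/-- (XS) with weights `φ(n)/n²` -/
theorem xsw {θ : ℝ} (hθ : 0 < θ) (hθ1 : θ ≤ 1) (hz : XSS θ) :
    ∀ δ : ℝ, 0 < δ → ∃ c : ℝ, 0 < c ∧ ∃ X₀ : ℕ, ∀ X ≥ X₀,
      ∀ (D : ℝ) (q : ℕ) (r : ℤ) (F : Finset (ℕ × ℤ)), (X : ℝ) ^ δ ≤ D → D ≤ X → Odd q →
      (q : ℝ) ≤ (X : ℝ) ^ (δ / 2) → IsCoprime r (q : ℤ) →
      (∀ a ∈ F, a.1.Prime ∧ PP X < (a.1 : ℝ) ∧ ¬ a.1 ∣ q) →
      (F.card : ℝ) ≤ 100 * Real.log X →
      c * (1 / (q : ℝ)) ≤
        ∑ n ∈ (Pset θ D q r F).filter (fun n => Odd n), (n.totient : ℝ) / (n : ℝ) ^ 2 := by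
  classical
  obtain ⟨c, D₀, hc, H⟩ := hz
  intro δ hδ
  obtain ⟨X₀, hX₀⟩ := tw_large δ D₀ hδ
  refine ⟨c / 2, by positivity, max X₀ 3, fun X hX D q r F hD1 hD2 hq hqX hr hF hFc => ?_⟩
  obtain ⟨g1, g2, g3, g4, g5, g6, g7, g8⟩ := hX₀ X (le_trans (le_max_left _ _) hX) D hD1 hD2
  have hX0 : (0 : ℝ) < X := by
    have : 3 ≤ X := le_trans (le_max_right _ _) hX
    exact_mod_cast (by omega : 0 < X)
  have hD0 : 0 < D := by linarith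
  have hq0 : (0 : ℝ) < q := by
    rcases hq with ⟨k, hk⟩
    exact_mod_cast (by omega : 0 < q)
  have hqD : (q : ℝ) ≤ D ^ (1 / 2 : ℝ) := by
    refine hqX.trans ?_
    rw [div_eq_mul_one_div, Real.rpow_mul hX0.le]
    exact Real.rpow_le_rpow (Real.rpow_nonneg hX0.le _) hD1 (by norm_num)
  have h1 := H D (PP X) q r F g1 g6 hq hqD hr hF (hFc.trans g8)
  have hset : (Pset θ D q r F).filter (fun n => Odd n) =
      (Finset.Icc 1 ⌊(1 + θ) * D⌋₊).filter (fun n : ℕ => D < (n : ℝ) ∧ Odd n ∧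
      (q : ℤ) ∣ (n : ℤ) - r ∧ ∀ a ∈ F, ¬ (a.1 : ℤ) ∣ (n : ℤ) - a.2) := by
    unfold Pset
    rw [Finset.filter_filter]
    apply Finset.filter_congr
    intro n _
    tauto
  rw [hset]
  set T := (Finset.Icc 1 ⌊(1 + θ) * D⌋₊).filter (fun n : ℕ => D < (n : ℝ) ∧ Odd n ∧
      (q : ℤ) ∣ (n : ℤ) - r ∧ ∀ a ∈ F, ¬ (a.1 : ℤ) ∣ (n : ℤ) - a.2) with hT
  have h2 : ∑ n ∈ T, ((n.totient : ℝ) / n) / (2 * D) ≤ ∑ n ∈ T, (n.totient : ℝ) / (n : ℝ) ^ 2 := by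
    apply Finset.sum_le_sum
    intro n hn
    rw [hT, Finset.mem_filter, Finset.mem_Icc] at hn
    have hn0 : (0 : ℝ) < n := by linarith [hn.2.1]
    have hn1 : (n : ℝ) ≤ (1 + θ) * D := (Nat.le_floor_iff (by positivity)).1 hn.1.2
    rw [div_div, sq]
    apply div_le_div_of_nonneg_left (by positivity) (by positivity)
    nlinarith
  refine le_trans ?_ h2
  rw [← Finset.sum_div, le_div_iff₀ (by positivity)]
  refine le_trans (le_of_eq ?_) h1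
  field_simp

end Pool.Agent.PENT
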