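import Pool.Agent.Lib_helper15.PENT.TGeo
import Pool.Agent.Lib_helper15.PENT.TChain
import Pool.Agent.Lib_helper15.PENT.TWin

/-!
# PENT (MP_892e4c_nt), part T: definitions (helper15)

The pentagon: `u_3, u_1` free, `Δ = det(u_3, u_1)`, `u_2 = (e_2 u_1 + e_1 u_3)/Δ`,
`u_4 = (e_3 u_1 + x_0 u_3)/Δ`, `u_0 = (e_0 u_4 + e_4 u_1)/x_0`; the sequence
`t = (e_2, e_1, e_3, x_0, e_4, e_0)`.
-/

set_option autoImplicit false

namespace Pool.Agent.PENT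

open Finset

/-- the box `s ((a, 1.01^k a] × (b, 1.01^k b])` -/
def Bx (k : ℕ) (s a b : ℝ) (u : ℤ × ℤ) : Prop :=
  s * a < (u.1 : ℝ) ∧ (u.1 : ℝ) ≤ (101 / 100 : ℝ) ^ k * (s * a) ∧
    s * b < (u.2 : ℝ) ∧ (u.2 : ℝ) ≤ (101 / 100 : ℝ) ^ k * (s * b)

/-- the base vectors `u_3, u_1` for the scales `s` -/
structure Bas (s : Fin 5 → ℝ) (v w : ℤ × ℤ) : Prop where
  b3 : Bx 1 (s 3) 3 1 v
  b1 : Bx 1 (s 1) 1 3 w
  e3 : Even v.1
  o3 : Odd v.2
  o1 : Odd w.1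
  e1 : Even w.2
  c3 : IsCoprime v.1 v.2
  c1 : IsCoprime w.1 w.2

open Classical in
/-- the base vectors as a finite set -/
noncomputable def BasF (s : Fin 5 → ℝ) : Finset ((ℤ × ℤ) × (ℤ × ℤ)) :=
  (((Icc 0 ⌈4 * s 3⌉) ×ˢ (Icc 0 ⌈4 * s 3⌉)) ×ˢ ((Icc 0 ⌈4 * s 1⌉) ×ˢ (Icc 0 ⌈4 * s 1⌉))).filter
    (fun z => Bas s z.1 z.2)

/-- the residue `0` for the primes `> P` dividing `m` -/
noncomputable def Fz (P : ℝ) (m : ℕ) : Finset (ℕ × ℤ) := by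
  classical
  exact (m.primeFactors.filter (fun p : ℕ => P < (p : ℝ))).image (fun p : ℕ => (p, (0 : ℤ)))

theorem rs_exists (p : ℕ) (a b : ℤ) : ∃ ρ : ℤ, IsCoprime (p : ℤ) a → ∀ n : ℤ,
    (p : ℤ) ∣ a * n + b ↔ (p : ℤ) ∣ n - ρ := by
  by_cases h : IsCoprime (p : ℤ) a
  · obtain ⟨x, y, hxy⟩ := h
    refine ⟨-y * b, fun _ n => ?_⟩
    constructor
    · intro h
      have : n - -y * b = y * (a * n + b) + (p : ℤ) * (x * n) := by
        linear_combination (-n) * hxy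
      rw [this]
      exact dvd_add (h.mul_left y) (dvd_mul_right _ _)
    · intro h
      have : a * n + b = a * (n - -y * b) + (p : ℤ) * (x * b) := by
        linear_combination (-b) * hxy
      rw [this]
      exact dvd_add (h.mul_left a) (dvd_mul_right _ _)
  · exact ⟨0, fun h' => absurd h' h⟩

/-- the root of `a n + b = 0` modulo `p` -/
noncomputable def rs (p : ℕ) (a b : ℤ) : ℤ := Classical.choose (rs_exists p a b)

theorem rs_spec {p : ℕ} {a : ℤ} (h : IsCoprime (p : ℤ) a) (b n : ℤ) :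
    (p : ℤ) ∣ a * n + b ↔ (p : ℤ) ∣ n - rs p a b :=
  Classical.choose_spec (rs_exists p a b) h n

/-- the root of `a n + b = 0` for the primes `> P` dividing `m` -/
noncomputable def Fr (P : ℝ) (m : ℕ) (a b : ℤ) : Finset (ℕ × ℤ) := by
  classical
  exact (m.primeFactors.filter (fun p : ℕ => P < (p : ℝ))).image
    (fun p : ℕ => (p, rs p a b))

theorem mu_exists (v w : ℤ × ℤ) : ∃ μ : ℤ, IsCoprime v.1 v.2 → IsCoprime w.1 w.2 →
    IsCoprime μ (dt v w) ∧ ∀ a b : ℤ, Int2 v w a b ↔ dt v w ∣ b - μ * a := by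
  by_cases h : IsCoprime v.1 v.2 ∧ IsCoprime w.1 w.2
  · obtain ⟨μ, h1, h2⟩ := int2_iff h.1 h.2
    exact ⟨μ, fun _ _ => ⟨h1, h2⟩⟩
  · exact ⟨0, fun h1 h2 => absurd ⟨h1, h2⟩ h⟩

/-- the multiplier of the congruence -/
noncomputable def mu (v w : ℤ × ℤ) : ℤ := Classical.choose (mu_exists v w)

theorem mu_spec {v w : ℤ × ℤ} (hv : IsCoprime v.1 v.2) (hw : IsCoprime w.1 w.2) :
    IsCoprime (mu v w) (dt v w) ∧ ∀ a b : ℤ, Int2 v w a b ↔ dt v w ∣ b - mu v w * a :=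
  Classical.choose_spec (mu_exists v w) hv hw

open Classical in
/-- the members of `DP P` in `Pset` -/
noncomputable def PD (D : ℝ) (P : ℝ) (q : ℕ) (r : ℤ) (F : Finset (ℕ × ℤ)) : Finset ℕ :=
  (Pset (1 / 100) D q r F).filter (fun n => DP P n)

/-- the odd members of `Pset` -/
noncomputable def PO (D : ℝ) (q : ℕ) (r : ℤ) (F : Finset (ℕ × ℤ)) : Finset ℕ :=
  (Pset (1 / 100) D q r F).filter (fun n => Odd n)

/-- the choices for the pentagon, base vectors `v = u_3`, `w = u_1`, `P`, scales `s` -/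
noncomputable def S5 (P : ℝ) (s : Fin 5 → ℝ) (v w : ℤ × ℤ) (j : ℕ) (t : ℕ → ℕ) : Finset ℕ :=
  if j = 0 then PD (dt v w * s 2 / s 1) P 1 0 (Fz P (dt v w).natAbs)
  else if j = 1 then
    PD (3 * (dt v w * s 2 / s 3)) P (dt v w).natAbs (mu v w * t 0) (Fz P (t 0))
  else if j = 2 then
    PD (dt v w * s 4 / s 1) P 1 0 (Fz P ((dt v w).natAbs * t 0 * t 1))
  else if j = 3 then
    PO (dt v w * s 4 / s 3) (dt v w).natAbs (mu v w * t 2) (Fz P (t 0 * t 1 * t 2))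
  else if j = 4 then
    PD (t 3 * s 0 / s 1) P 1 0
      (Fz P (t 3 * t 0 * t 1 * t 2 * ((t 0 * t 3 : ℤ) - t 1 * t 2).natAbs))
  else if j = 5 then
    PD (t 3 * s 0 / s 4) P (t 3) (mu (uu v w (t 2) (t 3)) w * t 4)
      (Fz P ((dt v w).natAbs * t 0 * t 1 * t 2 * t 4) ∪
        Fr P (t 0) (t 2) (t 4 * dt v w))
  else ∅

/-- the pentagon of a sequence -/
def pol5 (v w : ℤ × ℤ) (t : ℕ → ℕ) : Fin 5 → ℤ × ℤ :=
  ![uu (uu v w (t 2) (t 3)) w (t 4) (t 5), w, uu v w (t 0) (t 1), v, uu v w (t 2) (t 3)]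

/-- the weight of the `j`-th entry of the sequence -/
noncomputable def w5 (P : ℝ) (al : Fin 5 → ℝ) (j : ℕ) (t : ℕ → ℕ) (n : ℕ) : ℝ :=
  if j = 0 then fw P (al 2) n / n
  else if j = 1 then fw P (al 1) n / n
  else if j = 2 then fw P (al 3) n / n
  else if j = 3 then (n.totient : ℝ) / (n : ℝ) ^ 2
  else if j = 4 then fw P (al 4) n / n
  else if j = 5 then fw P (al 0) n / n * ((t 3 : ℝ) ^ 2 / ((t 3).totient : ℝ))
  else 0

/-- the scales are in the windows -/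
def Win (p : Par) (X : ℕ) (s : Fin 5 → ℝ) : Prop :=
  ∀ j, (X : ℝ) ^ p.e j ≤ s j ∧ 20 * s j ≤ (X : ℝ) ^ (p.e j + p.ep / 50)

/-- the ranks of the directions of the `u_j` -/
def rk5 : Fin 5 → ℕ := ![3, 4, 1, 0, 2]

/-- the signs of the determinants -/
def sg5 (i j : Fin 5) : ℤ := if rk5 i < rk5 j then 1 else -1

/-- the conditions on the windows -/
structure Geo (ρ : ℝ) (p : Par) : Prop where
  ep0 : 0 < p.ep
  e4 : ∀ j, 4 * p.ep ≤ p.e j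
  ek : ∀ j, p.e j ≤ 1 / 100
  h40 : p.e 4 + p.ep ≤ ρ * p.e 0
  h20 : p.e 2 + p.ep ≤ ρ * p.e 0
  h14 : p.e 1 + p.ep ≤ ρ * p.e 4
  h12 : p.e 1 + p.ep ≤ ρ * p.e 2
  h13 : p.e 3 = p.e 1
  c1 : p.c1 = 1 / 20
  sg : p.sg = sg5

end Pool.Agent.PENT
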