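import Pool.Agent.Lib_helper15.PENT.TFacts

/-!
# PENT (MP_892e4c_nt), part T: the facts (helper15)
-/

set_option autoImplicit false

namespace Pool.Agent.PENT

open Finset

/-- the entries of an admissible sequence (the base vectors are `v = u_3`, `w = u_1`) -/
structure TF (P : ℝ) (s : Fin 5 → ℝ) (v w : ℤ × ℤ) (t : ℕ → ℕ) : Prop where
  D0 : 0 < dt v w
  i2 : Int2 v w (t 0) (t 1)
  i4 : Int2 v w (t 2) (t 3)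
  i0 : Int2 (uu v w (t 2) (t 3)) w (t 4) (t 5)
  d4 : dt (uu v w (t 2) (t 3)) w = t 3
  p0 : DP P (t 0)
  p1 : DP P (t 1)
  p2 : DP P (t 2)
  p4 : DP P (t 4)
  p5 : DP P (t 5)
  x0 : Odd (t 3)
  c0 : IsCoprime ((t 0 : ℕ) : ℤ) (dt v w)
  c1 : IsCoprime ((t 1 : ℕ) : ℤ) (dt v w * t 0)
  c2 : IsCoprime ((t 2 : ℕ) : ℤ) (dt v w * t 0 * t 1)
  c3 : IsCoprime ((t 3 : ℕ) : ℤ) (dt v w * t 0 * t 1 * t 2)
  c4 : IsCoprime ((t 4 : ℕ) : ℤ) (t 3 * t 0 * t 1 * t 2 * (t 0 * t 3 - t 1 * t 2))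
  c5 : IsCoprime ((t 5 : ℕ) : ℤ) (dt v w * t 0 * t 1 * t 2 * t 4)
  c6 : IsCoprime ((t 0 : ℕ) : ℤ) (t 2 * t 5 + t 4 * dt v w)
  b0 : Bx 3 (s 0) 5 7 (uu (uu v w (t 2) (t 3)) w (t 4) (t 5))
  b2 : Bx 2 (s 2) 10 6 (uu v w (t 0) (t 1))
  b4 : Bx 2 (s 4) 4 4 (uu v w (t 2) (t 3))

/-- block B1 -/
theorem tf_of_mem {P : ℝ} {s : Fin 5 → ℝ} (hs : ∀ j, 0 < s j) {v w : ℤ × ℤ} (hb : Bas s v w)
    {t : ℕ → ℕ} (ht : t ∈ TT (S5 P s v w) 6) : TF P s v w t := by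
  have hm := TT_mem (s5_dep P s v w) ht
  have h0 := hm 0 (by norm_num)
  have h1 := hm 1 (by norm_num)
  have h2 := hm 2 (by norm_num)
  have h3 := hm 3 (by norm_num)
  have h4 := hm 4 (by norm_num)
  have h5 := hm 5 (by norm_num)
  obtain ⟨-, -, a3, a4⟩ := st0 hs hb h0
  obtain ⟨-, -, b3, b4, b5⟩ := st1 hs hb h0 h1
  obtain ⟨-, -, c3, c4⟩ := st2 hs hb h0 h1 h2
  obtain ⟨-, -, d3, d4, d5, d6, -, -⟩ := st3 hs hb h0 h1 h2 h3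
  obtain ⟨-, -, e3, e4⟩ := st4 hs hb h0 h1 h2 h3 h4
  obtain ⟨-, -, f3, f4, f5, f6⟩ := st5 hs hb h0 h1 h2 h3 h4 h5
  exact ⟨(bas_dt hs hb).1, b4, d4, f4, d6, a3, b3, c3, e3, f3, d3, a4, b5, c4, d5, e4, f5, f6,
    st_b0 hs hb h0 h1 h2 h3 h4 h5, st_b2 hs hb h0 h1, st_b4 hs hb h0 h1 h2 h3⟩

end Pool.Agent.PENT
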