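import Pool.Agent.Lib_helper15.PENT.TFm
import Pool.Agent.Lib_helper53.PENT.S3

/-!
# PENT (MP_892e4c_nt), part T: the determinants of the pentagon (block by helper53)
-/

set_option autoImplicit false

namespace Pool.Agent.PENT

/-- block B3: the determinants -/
theorem pol5_det {P : ℝ} {s : Fin 5 → ℝ} {v w : ℤ × ℤ} {t : ℕ → ℕ} (ht : TF P s v w t) :
    (dt (pol5 v w t 0) (pol5 v w t 1)).natAbs = t 5 ∧
    (dt (pol5 v w t 1) (pol5 v w t 2)).natAbs = t 1 ∧
    (dt (pol5 v w t 2) (pol5 v w t 3)).natAbs = t 0 ∧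
    (dt (pol5 v w t 3) (pol5 v w t 4)).natAbs = t 2 ∧
    (dt (pol5 v w t 4) (pol5 v w t 0)).natAbs = t 4 := pol5_det_pr ht

end Pool.Agent.PENT
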