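import Pool.Agent.Lib_helper15.PENT.TBox

/-!
# PENT (MP_892e4c_nt), part T: the facts about the chosen integers (helper15)
-/

set_option autoImplicit false

namespace Pool.Agent.PENT

open Finset

theorem fz_mem {P : ℝ} {m : ℕ} {a : ℕ × ℤ} :
    a ∈ Fz P m ↔ a.1 ∈ m.primeFactors ∧ P < (a.1 : ℝ) ∧ a.2 = 0 := by
  classical
  unfold Fz
  rw [Finset.mem_image]
  constructor
  · rintro ⟨p, hp, rfl⟩
    exact ⟨(Finset.mem_filter.1 hp).1, (Finset.mem_filter.1 hp).2, rfl⟩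
  · rintro ⟨h1, h2, h3⟩
    exact ⟨a.1, Finset.mem_filter.2 ⟨h1, h2⟩, by rw [← h3]⟩

theorem fr_mem {P : ℝ} {m : ℕ} {x y : ℤ} {a : ℕ × ℤ} :
    a ∈ Fr P m x y ↔ a.1 ∈ m.primeFactors ∧ P < (a.1 : ℝ) ∧ a.2 = rs a.1 x y := by
  classical
  unfold Fr
  rw [Finset.mem_image]
  constructor
  · rintro ⟨p, hp, rfl⟩
    exact ⟨(Finset.mem_filter.1 hp).1, (Finset.mem_filter.1 hp).2, rfl⟩
  · rintro ⟨h1, h2, h3⟩
    exact ⟨a.1, Finset.mem_filter.2 ⟨h1, h2⟩, by rw [← h3]⟩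

theorem fz_avoid {P : ℝ} {m n : ℕ} (hm : m ≠ 0)
    (h : ∀ a ∈ Fz P m, ¬ (a.1 : ℤ) ∣ (n : ℤ) - a.2) (p : ℕ) (hp : p.Prime) (hpm : p ∣ m)
    (hP : P < (p : ℝ)) : ¬ p ∣ n := by
  intro hpn
  refine h (p, 0) (fz_mem.2 ⟨Nat.mem_primeFactors.2 ⟨hp, hpm, hm⟩, hP, rfl⟩) ?_
  simpa using Int.natCast_dvd_natCast.2 hpn

theorem dp_cop {P : ℝ} {m n : ℕ} (hd : DP P n)
    (h : ∀ p : ℕ, p.Prime → p ∣ m → P < (p : ℝ) → ¬ p ∣ n) : Nat.Coprime n m := by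
  rw [Nat.coprime_iff_gcd_eq_one]
  by_contra hne
  obtain ⟨p, hp, hpd⟩ := Nat.exists_prime_and_dvd hne
  have h1 : p ∣ n := hpd.trans (Nat.gcd_dvd_left _ _)
  have h2 : p ∣ m := hpd.trans (Nat.gcd_dvd_right _ _)
  exact h p hp h2 (hd.2 p hp h1).2 h1

theorem dp_cop' {P : ℝ} {m n : ℕ} (hd : ∀ p : ℕ, p.Prime → p ∣ m → P < (p : ℝ))
    (h : ∀ p : ℕ, p.Prime → p ∣ m → P < (p : ℝ) → ¬ p ∣ n) : Nat.Coprime n m := by
  rw [Nat.coprime_iff_gcd_eq_one]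
  by_contra hne
  obtain ⟨p, hp, hpd⟩ := Nat.exists_prime_and_dvd hne
  have h1 : p ∣ n := hpd.trans (Nat.gcd_dvd_left _ _)
  have h2 : p ∣ m := hpd.trans (Nat.gcd_dvd_right _ _)
  exact h p hp h2 (hd p hp h2) h1

theorem dp_pos {P : ℝ} {n : ℕ} (h : DP P n) : 0 < n :=
  Nat.pos_of_ne_zero h.1.ne_zero

theorem mem_PD {D P : ℝ} {q : ℕ} {r : ℤ} {F : Finset (ℕ × ℤ)} {n : ℕ} (hD : 0 ≤ D) :
    n ∈ PD D P q r F ↔ D < (n : ℝ) ∧ (n : ℝ) ≤ 101 / 100 * D ∧ (q : ℤ) ∣ (n : ℤ) - r ∧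
      (∀ a ∈ F, ¬ (a.1 : ℤ) ∣ (n : ℤ) - a.2) ∧ DP P n := by
  classical
  unfold PD
  rw [Finset.mem_filter, mem_Pset hD (by norm_num),
    show (1 + 1 / 100 : ℝ) = 101 / 100 by norm_num]
  tauto

theorem mem_PO {D : ℝ} {q : ℕ} {r : ℤ} {F : Finset (ℕ × ℤ)} {n : ℕ} (hD : 0 ≤ D) :
    n ∈ PO D q r F ↔ D < (n : ℝ) ∧ (n : ℝ) ≤ 101 / 100 * D ∧ (q : ℤ) ∣ (n : ℤ) - r ∧
      (∀ a ∈ F, ¬ (a.1 : ℤ) ∣ (n : ℤ) - a.2) ∧ Odd n := by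
  classical
  unfold PO
  rw [Finset.mem_filter, mem_Pset hD (by norm_num),
    show (1 + 1 / 100 : ℝ) = 101 / 100 by norm_num]
  tauto

/-- the determinant of the base vectors -/
theorem bas_dt {s : Fin 5 → ℝ} (hs : ∀ j, 0 < s j) {v w : ℤ × ℤ} (hb : Bas s v w) :
    0 < dt v w ∧ 7.9 * (s 1 * s 3) < (dt v w : ℝ) ∧ (dt v w : ℝ) < 8.6 * (s 1 * s 3) ∧
      Odd (dt v w) := by
  have h1 := bx_dt (k := 1) (l := 1) (by norm_num) (hs 3) (hs 1) (by norm_num) (by norm_num)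
    (by norm_num) (by norm_num) hb.b3 hb.b1
  have h2 := bx_dt_upp (k := 1) (l := 1) (by norm_num) (hs 3) (hs 1) (by norm_num) (by norm_num)
    (by norm_num) (by norm_num) hb.b3 hb.b1
  have h13 : 0 < s 1 * s 3 := mul_pos (hs 1) (hs 3)
  have h3 : 7.9 * (s 1 * s 3) < (dt v w : ℝ) := by nlinarith
  refine ⟨?_, h3, by nlinarith, ?_⟩
  · have : (0 : ℝ) < dt v w := by linarith
    exact_mod_cast this
  · unfold dt
    exact Even.sub_odd (hb.e3.mul_right _) (hb.o3.mul hb.o1)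

section

variable {P : ℝ} {s : Fin 5 → ℝ} {v w : ℤ × ℤ} {t : ℕ → ℕ}

theorem st0 (hs : ∀ j, 0 < s j) (hb : Bas s v w) (h : t 0 ∈ S5 P s v w 0 t) :
    dt v w * s 2 / s 1 < (t 0 : ℝ) ∧ (t 0 : ℝ) ≤ 101 / 100 * (dt v w * s 2 / s 1) ∧
      DP P (t 0) ∧ IsCoprime ((t 0 : ℕ) : ℤ) (dt v w) := by
  obtain ⟨hD, hD1, hD2, hD3⟩ := bas_dt hs hb
  have hDr : (0 : ℝ) < dt v w := by exact_mod_cast hD
  have s1 := hs 1
  have s2 := hs 2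
  simp only [S5, if_true] at h
  rw [mem_PD (by positivity)] at h
  obtain ⟨h1, h2, h3, h4, h5⟩ := h
  refine ⟨h1, h2, h5, ?_⟩
  have h6 := dp_cop h5 (fz_avoid (by simpa using hD.ne') h4)
  rw [Int.isCoprime_iff_gcd_eq_one, Int.gcd_eq_natAbs, Int.natAbs_natCast]
  exact h6

theorem st1 (hs : ∀ j, 0 < s j) (hb : Bas s v w) (h0 : t 0 ∈ S5 P s v w 0 t)
    (h : t 1 ∈ S5 P s v w 1 t) :
    3 * (dt v w * s 2 / s 3) < (t 1 : ℝ) ∧ (t 1 : ℝ) ≤ 101 / 100 * (3 * (dt v w * s 2 / s 3)) ∧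
      DP P (t 1) ∧ Int2 v w (t 0) (t 1) ∧ IsCoprime ((t 1 : ℕ) : ℤ) (dt v w * t 0) := by
  obtain ⟨hD, hD1, hD2, hD3⟩ := bas_dt hs hb
  have hDr : (0 : ℝ) < dt v w := by exact_mod_cast hD
  obtain ⟨g1, g2, g3, g4⟩ := st0 hs hb h0
  have s1 := hs 1
  have s2 := hs 2
  have s3 := hs 3
  simp only [S5, one_ne_zero, if_false, if_true] at h
  rw [mem_PD (by positivity)] at h
  obtain ⟨h1, h2, h3, h4, h5⟩ := h
  obtain ⟨m1, m2⟩ := mu_spec hb.c3 hb.c1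
  have h3' : dt v w ∣ (t 1 : ℤ) - mu v w * t 0 := by
    rwa [Int.natAbs_of_nonneg hD.le] at h3
  refine ⟨h1, h2, h5, (m2 _ _).2 h3', ?_⟩
  apply IsCoprime.mul_right
  · obtain ⟨k, hk⟩ := h3'
    have e : (t 1 : ℤ) = mu v w * t 0 + dt v w * k := by linarith
    rw [e]
    have h7 : IsCoprime (mu v w * t 0) (dt v w) := IsCoprime.mul_left m1 g4
    exact IsCoprime.add_mul_left_left h7 k
  · rw [Nat.isCoprime_iff_coprime]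
    exact dp_cop h5 (fz_avoid (dp_pos g3).ne' h4)

theorem st2 (hs : ∀ j, 0 < s j) (hb : Bas s v w) (h0 : t 0 ∈ S5 P s v w 0 t)
    (h1 : t 1 ∈ S5 P s v w 1 t) (h : t 2 ∈ S5 P s v w 2 t) :
    dt v w * s 4 / s 1 < (t 2 : ℝ) ∧ (t 2 : ℝ) ≤ 101 / 100 * (dt v w * s 4 / s 1) ∧
      DP P (t 2) ∧ IsCoprime ((t 2 : ℕ) : ℤ) (dt v w * t 0 * t 1) := by
  obtain ⟨hD, hD1, hD2, hD3⟩ := bas_dt hs hb
  have hDr : (0 : ℝ) < dt v w := by exact_mod_cast hD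
  obtain ⟨-, -, g3, g4⟩ := st0 hs hb h0
  obtain ⟨-, -, k3, -, -⟩ := st1 hs hb h0 h1
  have s1 := hs 1
  have s4 := hs 4
  simp only [S5, OfNat.ofNat_ne_zero, OfNat.ofNat_ne_one, if_false, if_true] at h
  rw [mem_PD (by positivity)] at h
  obtain ⟨h1, h2, h3, h4, h5⟩ := h
  refine ⟨h1, h2, h5, ?_⟩
  have hne : (dt v w).natAbs * t 0 * t 1 ≠ 0 :=
    mul_ne_zero (mul_ne_zero (by simpa using hD.ne') (dp_pos g3).ne') (dp_pos k3).ne'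
  have h6 := dp_cop h5 (fz_avoid hne h4)
  rw [Int.isCoprime_iff_gcd_eq_one, Int.gcd_eq_natAbs, Int.natAbs_natCast, Int.natAbs_mul,
    Int.natAbs_mul, Int.natAbs_natCast, Int.natAbs_natCast]
  exact h6

theorem st3 (hs : ∀ j, 0 < s j) (hb : Bas s v w) (h0 : t 0 ∈ S5 P s v w 0 t)
    (h1 : t 1 ∈ S5 P s v w 1 t) (h2 : t 2 ∈ S5 P s v w 2 t) (h : t 3 ∈ S5 P s v w 3 t) :
    dt v w * s 4 / s 3 < (t 3 : ℝ) ∧ (t 3 : ℝ) ≤ 101 / 100 * (dt v w * s 4 / s 3) ∧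
      Odd (t 3) ∧ Int2 v w (t 2) (t 3) ∧ IsCoprime ((t 3 : ℕ) : ℤ) (dt v w * t 0 * t 1 * t 2) ∧
      dt (uu v w (t 2) (t 3)) w = t 3 ∧ dt v (uu v w (t 2) (t 3)) = t 2 ∧
      IsCoprime (uu v w (t 2) (t 3)).1 (uu v w (t 2) (t 3)).2 := by
  obtain ⟨hD, hD1, hD2, hD3⟩ := bas_dt hs hb
  have hDr : (0 : ℝ) < dt v w := by exact_mod_cast hD
  obtain ⟨-, -, g3, g4⟩ := st0 hs hb h0
  obtain ⟨-, -, k3, -, k5⟩ := st1 hs hb h0 h1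
  obtain ⟨-, -, l3, l4⟩ := st2 hs hb h0 h1 h2
  have s3 := hs 3
  have s4 := hs 4
  simp only [S5, show (3 : ℕ) ≠ 0 by norm_num, show (3 : ℕ) ≠ 1 by norm_num,
      show (3 : ℕ) ≠ 2 by norm_num, if_false, if_true] at h
  rw [mem_PO (by positivity)] at h
  obtain ⟨h1, h2, h3, h4, h5⟩ := h
  obtain ⟨m1, m2⟩ := mu_spec hb.c3 hb.c1
  have h3' : dt v w ∣ (t 3 : ℤ) - mu v w * t 2 := by
    rwa [Int.natAbs_of_nonneg hD.le] at h3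
  have hi := (m2 _ _).2 h3'
  obtain ⟨u1, u2⟩ := uu_dt hi hD.ne'
  have hc : IsCoprime ((t 3 : ℕ) : ℤ) (dt v w * t 0 * t 1 * t 2) := by
    rw [mul_assoc, mul_assoc]
    apply IsCoprime.mul_right
    · obtain ⟨k, hk⟩ := h3'
      have e : (t 3 : ℤ) = mu v w * t 2 + dt v w * k := by linarith
      rw [e]
      have h7 : IsCoprime (mu v w * t 2) (dt v w) :=
        IsCoprime.mul_left m1 (IsCoprime.of_mul_right_left (IsCoprime.of_mul_right_left l4))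
      exact IsCoprime.add_mul_left_left h7 k
    · have hne : t 0 * t 1 * t 2 ≠ 0 :=
        mul_ne_zero (mul_ne_zero (dp_pos g3).ne' (dp_pos k3).ne') (dp_pos l3).ne'
      have h8 : Nat.Coprime (t 3) (t 0 * t 1 * t 2) := by
        apply dp_cop' (P := P) _ (fz_avoid hne h4)
        intro p hp hpd
        rcases (Nat.Prime.dvd_mul hp).1 hpd with h9 | h9
        · rcases (Nat.Prime.dvd_mul hp).1 h9 with h10 | h10
          · exact (g3.2 p hp h10).2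
          · exact (k3.2 p hp h10).2
        · exact (l3.2 p hp h9).2
      have := Nat.isCoprime_iff_coprime.2 h8
      push_cast at this
      rwa [mul_assoc] at this
  refine ⟨h1, h2, h5, hi, hc, u2, u1, ?_⟩
  rw [Int.isCoprime_iff_gcd_eq_one]
  have hg1 : ((Int.gcd (uu v w (t 2) (t 3)).1 (uu v w (t 2) (t 3)).2 : ℕ) : ℤ) ∣
      dt (uu v w (t 2) (t 3)) w := by
    unfold dt
    exact dvd_sub ((Int.gcd_dvd_left _ _).mul_right _) ((Int.gcd_dvd_right _ _).mul_right _)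
  have hg2 : ((Int.gcd (uu v w (t 2) (t 3)).1 (uu v w (t 2) (t 3)).2 : ℕ) : ℤ) ∣
      dt v (uu v w (t 2) (t 3)) := by
    unfold dt
    exact dvd_sub ((Int.gcd_dvd_right _ _).mul_left _) ((Int.gcd_dvd_left _ _).mul_left _)
  rw [u2] at hg1
  rw [u1] at hg2
  have h9 : IsCoprime ((t 3 : ℕ) : ℤ) (t 2) := IsCoprime.of_mul_right_right hc
  have h10 := h9.isUnit_of_dvd' hg1 hg2
  rcases Int.isUnit_iff.1 h10 with h11 | h11
  · exact_mod_cast h11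
  · have : (0 : ℤ) ≤ ((Int.gcd (uu v w (t 2) (t 3)).1 (uu v w (t 2) (t 3)).2 : ℕ) : ℤ) :=
      Int.natCast_nonneg _
    omega

/-- the boxes of `u_2` and `u_4` -/
theorem st_b2 (hs : ∀ j, 0 < s j) (hb : Bas s v w) (h0 : t 0 ∈ S5 P s v w 0 t)
    (h1 : t 1 ∈ S5 P s v w 1 t) : Bx 2 (s 2) 10 6 (uu v w (t 0) (t 1)) := by
  obtain ⟨hD, -, -, -⟩ := bas_dt hs hb
  obtain ⟨a1, a2, -, -⟩ := st0 hs hb h0
  obtain ⟨b1, b2, -, b3, -⟩ := st1 hs hb h0 h1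
  have := bx_uu (κ := 1) (κ' := 3) (hs 3) (hs 1) (by norm_num) (by norm_num) (by norm_num)
    (by norm_num) hb.b3 hb.b1 hD b3 (Z := s 2) (hs 2) (by norm_num) (by norm_num)
    (by simpa using a1) (by simpa using a2) (by simpa using b1) (by simpa using b2)
  norm_num at this
  exact this

theorem st_b4 (hs : ∀ j, 0 < s j) (hb : Bas s v w) (h0 : t 0 ∈ S5 P s v w 0 t)
    (h1 : t 1 ∈ S5 P s v w 1 t) (h2 : t 2 ∈ S5 P s v w 2 t) (h3 : t 3 ∈ S5 P s v w 3 t) :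
    Bx 2 (s 4) 4 4 (uu v w (t 2) (t 3)) := by
  obtain ⟨hD, -, -, -⟩ := bas_dt hs hb
  obtain ⟨a1, a2, -, -⟩ := st2 hs hb h0 h1 h2
  obtain ⟨b1, b2, -, b3, -, -, -, -⟩ := st3 hs hb h0 h1 h2 h3
  have := bx_uu (κ := 1) (κ' := 1) (hs 3) (hs 1) (by norm_num) (by norm_num) (by norm_num)
    (by norm_num) hb.b3 hb.b1 hD b3 (Z := s 4) (hs 4) (by norm_num) (by norm_num)
    (by simpa using a1) (by simpa using a2) (by simpa using b1) (by simpa using b2)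
  norm_num at this
  exact this

/-- `e_2 x_0 ≠ e_1 e_3` -/
theorem st_ne (hs : ∀ j, 0 < s j) (hb : Bas s v w) (h0 : t 0 ∈ S5 P s v w 0 t)
    (h1 : t 1 ∈ S5 P s v w 1 t) (h2 : t 2 ∈ S5 P s v w 2 t) (h3 : t 3 ∈ S5 P s v w 3 t) :
    (t 0 * t 3 : ℤ) - t 1 * t 2 ≠ 0 := by
  obtain ⟨hD, -, -, -⟩ := bas_dt hs hb
  obtain ⟨-, -, -, b3, -⟩ := st1 hs hb h0 h1
  obtain ⟨-, -, -, -, -, c1, c2, -⟩ := st3 hs hb h0 h1 h2 h3
  have e := uu_dt' b3 (uu v w (t 2) (t 3))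
  rw [c1, dt_neg (uu v w (t 2) (t 3)) v, c2] at e
  have b := bx_dt (k := 2) (l := 2) (by norm_num) (hs 2) (hs 4) (by norm_num) (by norm_num)
    (by norm_num) (by norm_num) (st_b2 hs hb h0 h1) (st_b4 hs hb h0 h1 h2 h3)
  have h24 : 0 < s 2 * s 4 := mul_pos (hs 2) (hs 4)
  have b' : (0 : ℝ) < dt (uu v w (t 0) (t 1)) (uu v w (t 2) (t 3)) := by nlinarith
  have b'' : 0 < dt (uu v w (t 0) (t 1)) (uu v w (t 2) (t 3)) := by exact_mod_cast b'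
  rw [dt_neg (uu v w (t 2) (t 3)) (uu v w (t 0) (t 1))] at e
  intro h
  have : dt v w * -dt (uu v w (t 0) (t 1)) (uu v w (t 2) (t 3)) = 0 := by rw [e]; linarith
  have h' := mul_pos hD b''
  linarith

theorem st4 (hs : ∀ j, 0 < s j) (hb : Bas s v w) (h0 : t 0 ∈ S5 P s v w 0 t)
    (h1 : t 1 ∈ S5 P s v w 1 t) (h2 : t 2 ∈ S5 P s v w 2 t) (h3 : t 3 ∈ S5 P s v w 3 t)
    (h : t 4 ∈ S5 P s v w 4 t) :
    t 3 * s 0 / s 1 < (t 4 : ℝ) ∧ (t 4 : ℝ) ≤ 101 / 100 * (t 3 * s 0 / s 1) ∧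
      DP P (t 4) ∧
      IsCoprime ((t 4 : ℕ) : ℤ) (t 3 * t 0 * t 1 * t 2 * (t 0 * t 3 - t 1 * t 2)) := by
  obtain ⟨-, -, g3, g4⟩ := st0 hs hb h0
  obtain ⟨-, -, k3, -, -⟩ := st1 hs hb h0 h1
  obtain ⟨-, -, l3, l4⟩ := st2 hs hb h0 h1 h2
  obtain ⟨-, -, m3, -⟩ := st3 hs hb h0 h1 h2 h3
  have hne := st_ne hs hb h0 h1 h2 h3
  have s1 := hs 1
  have s0 := hs 0
  simp only [S5, show (4 : ℕ) ≠ 0 by norm_num, show (4 : ℕ) ≠ 1 by norm_num,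
      show (4 : ℕ) ≠ 2 by norm_num, show (4 : ℕ) ≠ 3 by norm_num, if_false, if_true] at h
  rw [mem_PD (by positivity)] at h
  obtain ⟨h1, h2, h3, h4, h5⟩ := h
  refine ⟨h1, h2, h5, ?_⟩
  have h3ne : t 3 ≠ 0 := by
    rintro h0
    rw [h0] at m3
    exact absurd m3 (by decide)
  have hne' : t 3 * t 0 * t 1 * t 2 * ((t 0 * t 3 : ℤ) - t 1 * t 2).natAbs ≠ 0 :=
    mul_ne_zero (mul_ne_zero (mul_ne_zero (mul_ne_zero h3ne (dp_pos g3).ne') (dp_pos k3).ne')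
      (dp_pos l3).ne') (Int.natAbs_ne_zero.2 hne)
  have h6 := dp_cop h5 (fz_avoid hne' h4)
  rw [Int.isCoprime_iff_gcd_eq_one, Int.gcd_eq_natAbs, Int.natAbs_natCast, Int.natAbs_mul,
    Int.natAbs_mul, Int.natAbs_mul, Int.natAbs_mul]
  simp only [Int.natAbs_natCast]
  exact h6

theorem st5 (hs : ∀ j, 0 < s j) (hb : Bas s v w) (h0 : t 0 ∈ S5 P s v w 0 t)
    (h1 : t 1 ∈ S5 P s v w 1 t) (h2 : t 2 ∈ S5 P s v w 2 t) (h3 : t 3 ∈ S5 P s v w 3 t)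
    (h4 : t 4 ∈ S5 P s v w 4 t) (h : t 5 ∈ S5 P s v w 5 t) :
    t 3 * s 0 / s 4 < (t 5 : ℝ) ∧ (t 5 : ℝ) ≤ 101 / 100 * (t 3 * s 0 / s 4) ∧
      DP P (t 5) ∧ Int2 (uu v w (t 2) (t 3)) w (t 4) (t 5) ∧
      IsCoprime ((t 5 : ℕ) : ℤ) (dt v w * t 0 * t 1 * t 2 * t 4) ∧
      IsCoprime ((t 0 : ℕ) : ℤ) (t 2 * t 5 + t 4 * dt v w) := by
  classical
  obtain ⟨hD, -, -, -⟩ := bas_dt hs hb
  obtain ⟨-, -, g3, g4⟩ := st0 hs hb h0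
  obtain ⟨-, -, k3, -, -⟩ := st1 hs hb h0 h1
  obtain ⟨-, -, l3, l4⟩ := st2 hs hb h0 h1 h2
  obtain ⟨-, -, m3, -, -, m6, -, m8⟩ := st3 hs hb h0 h1 h2 h3
  obtain ⟨-, -, n3, n4⟩ := st4 hs hb h0 h1 h2 h3 h4
  have s4 := hs 4
  have s0 := hs 0
  simp only [S5, show (5 : ℕ) ≠ 0 by norm_num, show (5 : ℕ) ≠ 1 by norm_num,
      show (5 : ℕ) ≠ 2 by norm_num, show (5 : ℕ) ≠ 3 by norm_num,
      show (5 : ℕ) ≠ 4 by norm_num, if_false, if_true] at h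
  rw [mem_PD (by positivity)] at h
  obtain ⟨h1, h2, h3, h4, h5⟩ := h
  obtain ⟨-, q2⟩ := mu_spec m8 hb.c1
  rw [m6] at q2
  have hne : (dt v w).natAbs * t 0 * t 1 * t 2 * t 4 ≠ 0 :=
    mul_ne_zero (mul_ne_zero (mul_ne_zero (mul_ne_zero (by simpa using hD.ne')
      (dp_pos g3).ne') (dp_pos k3).ne') (dp_pos l3).ne') (dp_pos n3).ne'
  refine ⟨h1, h2, h5, (q2 _ _).2 h3, ?_, ?_⟩
  · have h6 := dp_cop h5 (fz_avoid hne
      (fun a ha => h4 a (Finset.mem_union_left _ ha)))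
    rw [Int.isCoprime_iff_gcd_eq_one, Int.gcd_eq_natAbs, Int.natAbs_natCast, Int.natAbs_mul,
      Int.natAbs_mul, Int.natAbs_mul, Int.natAbs_mul]
    simp only [Int.natAbs_natCast]
    exact h6
  · rw [Int.isCoprime_iff_gcd_eq_one, Int.gcd_eq_natAbs, Int.natAbs_natCast]
    by_contra hne'
    obtain ⟨p, hp, hpd⟩ := Nat.exists_prime_and_dvd hne'
    have r1 : p ∣ t 0 := hpd.trans (Nat.gcd_dvd_left _ _)
    have r2 : (p : ℤ) ∣ t 2 * t 5 + t 4 * dt v w :=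
      Int.natCast_dvd.2 (hpd.trans (Nat.gcd_dvd_right _ _))
    have r3 := (g3.2 p hp r1).2
    have r4 : IsCoprime (p : ℤ) (t 2) := by
      rw [Nat.isCoprime_iff_coprime]
      have : IsCoprime ((t 2 : ℕ) : ℤ) (t 0) :=
        IsCoprime.of_mul_right_right (IsCoprime.of_mul_right_left l4)
      rw [Nat.isCoprime_iff_coprime] at this
      exact (Nat.Coprime.coprime_dvd_right r1 this).symm
    refine h4 (p, rs p (t 2) (t 4 * dt v w)) (Finset.mem_union_right _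
      (fr_mem.2 ⟨Nat.mem_primeFactors.2 ⟨hp, r1, (dp_pos g3).ne'⟩, r3, rfl⟩)) ?_
    exact (rs_spec r4 _ _).1 r2

theorem st_b0 (hs : ∀ j, 0 < s j) (hb : Bas s v w) (h0 : t 0 ∈ S5 P s v w 0 t)
    (h1 : t 1 ∈ S5 P s v w 1 t) (h2 : t 2 ∈ S5 P s v w 2 t) (h3 : t 3 ∈ S5 P s v w 3 t)
    (h4 : t 4 ∈ S5 P s v w 4 t) (h5 : t 5 ∈ S5 P s v w 5 t) :
    Bx 3 (s 0) 5 7 (uu (uu v w (t 2) (t 3)) w (t 4) (t 5)) := by
  obtain ⟨-, -, m3, -, -, m6, -, m8⟩ := st3 hs hb h0 h1 h2 h3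
  obtain ⟨a1, a2, -, -⟩ := st4 hs hb h0 h1 h2 h3 h4
  obtain ⟨b1, b2, -, b3, -, -⟩ := st5 hs hb h0 h1 h2 h3 h4 h5
  have hD : 0 < dt (uu v w (t 2) (t 3)) w := by
    rw [m6]
    have : 0 < t 3 := m3.pos
    exact_mod_cast this
  have hD' : (dt (uu v w (t 2) (t 3)) w : ℝ) = t 3 := by rw [m6]; simp
  have := bx_uu (κ := 1) (κ' := 1) (hs 4) (hs 1) (by norm_num) (by norm_num) (by norm_num)
    (by norm_num) (st_b4 hs hb h0 h1 h2 h3)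
    (bx_mono (by norm_num) (hs 1).le (by norm_num) (by norm_num) hb.b1) hD b3 (Z := s 0) (hs 0)
    (by norm_num) (by norm_num)
    (by rw [hD']; simpa using a1) (by rw [hD']; simpa using a2) (by rw [hD']; simpa using b1)
    (by rw [hD']; simpa using b2)
  norm_num at this
  exact this

end

end Pool.Agent.PENT
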