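import Pool.Agent.Lib_helper15.PENT.TNest
import Pool.Agent.Lib_helper15.PENT.TDet
import Pool.Agent.Lib_helper23.PENT.S2
import Pool.Agent.Lib_helper87.PENT.S4
import Pool.Agent.Lib_helper9.PENT.S7

/-!
# PENT (MP_892e4c_nt), part T: the sum over the polygons (helper15)
-/

set_option autoImplicit false

namespace Pool.Agent.PENT

open Finset Filter

/-- the statement of `bas_sum` -/
def BAS : Prop := ∃ c A₀ : ℝ, 0 < c ∧ ∀ s : Fin 5 → ℝ, A₀ ≤ s 1 → A₀ ≤ s 3 →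
    s 1 ≤ s 3 ^ 2 → s 3 ≤ s 1 ^ 2 →
    c ≤ ∑ z ∈ BasF s, ((dt z.1 z.2).natAbs.totient : ℝ) / (dt z.1 z.2 : ℝ) ^ 3

theorem mem_BasF {s : Fin 5 → ℝ} {z : (ℤ × ℤ) × (ℤ × ℤ)} (h : z ∈ BasF s) : Bas s z.1 z.2 := by
  classical
  unfold BasF at h
  exact (Finset.mem_filter.1 h).2

/-- the weights -/
theorem w5_prod {P : ℝ} (al : Fin 5 → ℝ) {s : Fin 5 → ℝ} {v w : ℤ × ℤ} {t : ℕ → ℕ}
    (ht : TF P s v w t) :
    ∏ j ∈ range 6, w5 P al j t (t j) =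
      ∏ j : Fin 5, (fw P (al j) (dt (pol5 v w t j) (pol5 v w t (j + 1))).natAbs /
        ((dt (pol5 v w t j) (pol5 v w t (j + 1))).natAbs : ℝ)) := by
  obtain ⟨h0, h1, h2, h3, h4⟩ := pol5_det ht
  rw [Fin.prod_univ_five]
  have e0 : (0 : Fin 5) + 1 = 1 := rfl
  have e1 : (1 : Fin 5) + 1 = 2 := rfl
  have e2 : (2 : Fin 5) + 1 = 3 := rfl
  have e3 : (3 : Fin 5) + 1 = 4 := rfl
  have e4 : (4 : Fin 5) + 1 = 0 := rfl
  rw [e0, e1, e2, e3, e4, h0, h1, h2, h3, h4]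
  simp only [Finset.prod_range_succ, Finset.prod_range_zero, w5]
  norm_num
  have h3 : 0 < t 3 := ht.x0.pos
  have h3r : (0 : ℝ) < t 3 := by exact_mod_cast h3
  have h3t : (0 : ℝ) < (t 3).totient := by exact_mod_cast Nat.totient_pos.2 h3
  field_simp

/-- (T): the sum over the polygons -/
theorem tsum (hz : ∀ α : ℝ, 0 < α → α ≤ 1 → ZSS (1 / 100) α) (hx : XSS (1 / 100)) (hB : BAS)
    (al : Fin 5 → ℝ) (h0 : ∀ j, 0 < al j) (h1 : ∀ j, al j ≤ 1) :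
    ∃ ρ : ℝ, 0 < ρ ∧ ρ ≤ 1 / 2 ∧ ∀ p : Par, Geo ρ p → ∃ c : ℝ, 0 < c ∧ ∃ X₀ : ℕ, ∀ X ≥ X₀,
      ∃ G : Finset (Fin 5 → ℤ × ℤ), (∀ u ∈ G, p.GP X u) ∧
        c * Real.log X ^ (99 / 100 * ∑ j, al j) ≤
          ∑ u ∈ G, ∏ j : Fin 5, (fw (PP X) (al j) (dt (u j) (u (j + 1))).natAbs /
            ((dt (u j) (u (j + 1))).natAbs : ℝ)) := by
  classical
  obtain ⟨ρ, hρ0, hρ1, H⟩ := s5_sum hz hx al h0 h1
  obtain ⟨cB, A₀, hcB, HB⟩ := hB
  refine ⟨ρ, hρ0, hρ1, fun p hg => ?_⟩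
  obtain ⟨c, hc, X₁, H1⟩ := H p hg
  obtain ⟨cW, hcW, X₂, H2⟩ := win_card_pr hg
  have he : ∀ j, 0 < p.e j := fun j => by have := hg.e4 j; have := hg.ep0; linarith
  -- the base scales are large
  have hA : ∃ X₃ : ℕ, ∀ X ≥ X₃, A₀ ≤ (X : ℝ) ^ p.e 1 := by
    have t2 : Tendsto (fun X : ℕ => (X : ℝ) ^ p.e 1) atTop atTop :=
      (tendsto_rpow_atTop (he 1)).comp tendsto_natCast_atTop_atTop
    exact eventually_atTop.1 (t2.eventually_ge_atTop A₀)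
  obtain ⟨X₃, hX₃⟩ := hA
  refine ⟨c * cB * cW, by positivity, X₁ + X₂ + X₃ + 3, fun X hX => ?_⟩
  have hX2 : 2 ≤ X := by omega
  have hXr : (2 : ℝ) ≤ X := by exact_mod_cast hX2
  have hX0 : (0 : ℝ) < X := by linarith
  have hL : 0 < Real.log X := Real.log_pos (by linarith)
  obtain ⟨I, hI1, hI2⟩ := H2 X (by omega)
  let sc : (Fin 5 → ℕ) → Fin 5 → ℝ := fun i j => 2 ^ i j
  let K : Finset (Σ _ : Fin 5 → ℕ, Σ _ : (ℤ × ℤ) × (ℤ × ℤ), (ℕ → ℕ)) :=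
    I.sigma (fun i => (BasF (sc i)).sigma (fun z => TT (S5 (PP X) (sc i) z.1 z.2) 6))
  let φ : (Σ _ : Fin 5 → ℕ, Σ _ : (ℤ × ℤ) × (ℤ × ℤ), (ℕ → ℕ)) → Fin 5 → ℤ × ℤ :=
    fun k => pol5 k.2.1.1 k.2.1.2 k.2.2
  have hscpos : ∀ i j, 0 < sc i j := fun i j => by positivity
  have hK : ∀ k ∈ K, k.1 ∈ I ∧ Bas (sc k.1) k.2.1.1 k.2.1.2 ∧
      k.2.2 ∈ TT (S5 (PP X) (sc k.1) k.2.1.1 k.2.1.2) 6 := by
    intro k hk
    obtain ⟨a, b⟩ := Finset.mem_sigma.1 hk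
    obtain ⟨b1, b2⟩ := Finset.mem_sigma.1 b
    exact ⟨a, mem_BasF b1, b2⟩
  have hinj : Set.InjOn φ (K : Set _) := by
    intro k hk k' hk' hkk
    obtain ⟨a1, a2, a3⟩ := hK k hk
    obtain ⟨b1, b2, b3⟩ := hK k' hk'
    obtain ⟨e1, e2, e3, e4⟩ := pol5_inj_pr (P := PP X) (i := k.1) (i' := k'.1) a2 b2 a3 b3 hkk
    obtain ⟨i, ⟨v, w⟩, t⟩ := k
    obtain ⟨i', ⟨v', w'⟩, t'⟩ := k'
    simp only at e1 e2 e3 e4
    subst e1 e2 e3 e4
    rfl
  refine ⟨K.image φ, ?_, ?_⟩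
  · intro u hu
    obtain ⟨k, hk, rfl⟩ := Finset.mem_image.1 hu
    obtain ⟨a1, a2, a3⟩ := hK k hk
    exact pol5_good_pr hg (by omega) (hI1 k.1 a1) a2 (tf_of_mem (hscpos k.1) a2 a3)
  · rw [Finset.sum_image hinj]
    have e1 : ∀ k ∈ K, ∏ j : Fin 5, (fw (PP X) (al j) (dt (φ k j) (φ k (j + 1))).natAbs /
            ((dt (φ k j) (φ k (j + 1))).natAbs : ℝ)) =
          ∏ j ∈ range 6, w5 (PP X) al j k.2.2 (k.2.2 j) := by
      intro k hk
      obtain ⟨a1, a2, a3⟩ := hK k hk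
      exact (w5_prod al (tf_of_mem (hscpos k.1) a2 a3)).symm
    rw [Finset.sum_congr rfl e1]
    have e2 : ∑ k ∈ K, ∏ j ∈ range 6, w5 (PP X) al j k.2.2 (k.2.2 j) =
        ∑ i ∈ I, ∑ z ∈ BasF (sc i), ∑ t ∈ TT (S5 (PP X) (sc i) z.1 z.2) 6,
          ∏ j ∈ range 6, w5 (PP X) al j t (t j) := by
      simp only [K]
      rw [Finset.sum_sigma]
      apply Finset.sum_congr rfl
      intro i _
      rw [Finset.sum_sigma]
    rw [e2]
    have e3 : ∀ i ∈ I, c * cB * Real.log X ^ (∑ j, (99 / 100 * al j - 1)) ≤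
        ∑ z ∈ BasF (sc i), ∑ t ∈ TT (S5 (PP X) (sc i) z.1 z.2) 6,
          ∏ j ∈ range 6, w5 (PP X) al j t (t j) := by
      intro i hi
      have hw := hI1 i hi
      have hsz := win_sizes hg hX2 hw
      have hw' : Win p X (sc i) := hw
      have s1 : A₀ ≤ sc i 1 := (hX₃ X (by omega)).trans (hsz 1).2.1
      have s3 : A₀ ≤ sc i 3 := by
        have := (hsz 3).2.1
        rw [hg.h13] at this
        exact (hX₃ X (by omega)).trans this
      have hX1' : (1 : ℝ) ≤ X := by linarith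
      have sq : ∀ a b : Fin 5, p.e a = p.e b → sc i a ≤ sc i b ^ 2 := by
        intro a b hab
        have h5 := (hsz a).2.2.1
        have h6 := (hsz b).2.1
        have h7 := hg.e4 b
        have h8 := hg.ep0
        have h9 : (X : ℝ) ^ (p.e a + p.ep / 50) ≤ ((X : ℝ) ^ p.e b) ^ 2 := by
          rw [← Real.rpow_natCast ((X : ℝ) ^ p.e b) 2, ← Real.rpow_mul hX0.le]
          apply Real.rpow_le_rpow_of_exponent_le hX1'
          push_cast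
          linarith
        have h10 : ((X : ℝ) ^ p.e b) ^ 2 ≤ sc i b ^ 2 :=
          pow_le_pow_left₀ (Real.rpow_nonneg hX0.le _) h6 2
        have h11 : 0 < sc i a := hscpos i a
        have h12 : 20 * sc i a ≤ (X : ℝ) ^ (p.e a + p.ep / 50) := h5
        linarith
      have hB1 := HB (sc i) s1 s3 (sq 1 3 hg.h13.symm) (sq 3 1 hg.h13)
      calc c * cB * Real.log X ^ (∑ j, (99 / 100 * al j - 1))
          = c * Real.log X ^ (∑ j, (99 / 100 * al j - 1)) * cB := by ring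
        _ ≤ c * Real.log X ^ (∑ j, (99 / 100 * al j - 1)) *
            ∑ z ∈ BasF (sc i), ((dt z.1 z.2).natAbs.totient : ℝ) / (dt z.1 z.2 : ℝ) ^ 3 :=
            mul_le_mul_of_nonneg_left hB1
              (mul_nonneg hc.le (Real.rpow_nonneg hL.le _))
        _ = ∑ z ∈ BasF (sc i), c * Real.log X ^ (∑ j, (99 / 100 * al j - 1)) *
            (((dt z.1 z.2).natAbs.totient : ℝ) / (dt z.1 z.2 : ℝ) ^ 3) := by
            rw [Finset.mul_sum]
        _ ≤ _ := by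
            apply Finset.sum_le_sum
            intro z hz
            exact H1 X (by omega) (sc i) hw' z.1 z.2 (mem_BasF hz)
    have e4 := Finset.sum_le_sum e3
    rw [Finset.sum_const, nsmul_eq_mul] at e4
    refine le_trans ?_ e4
    have e5 : Real.log X ^ (99 / 100 * ∑ j, al j) =
        Real.log X ^ 5 * Real.log X ^ (∑ j, (99 / 100 * al j - 1)) := by
      rw [← Real.rpow_natCast (Real.log X) 5, ← Real.rpow_add hL]
      congr 1
      rw [Finset.sum_sub_distrib, ← Finset.mul_sum]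
      simp
    rw [e5]
    have hp : 0 ≤ c * cB * Real.log X ^ (∑ j, (99 / 100 * al j - 1)) :=
      mul_nonneg (by positivity) (Real.rpow_nonneg hL.le _)
    calc c * cB * cW * (Real.log X ^ 5 * Real.log X ^ (∑ j, (99 / 100 * al j - 1)))
        = (cW * Real.log X ^ 5) * (c * cB * Real.log X ^ (∑ j, (99 / 100 * al j - 1))) := by ring
      _ ≤ _ := mul_le_mul_of_nonneg_right hI2 hp

end Pool.Agent.PENT
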