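import Pool.Agent.Lib_helper8.PENT.Frame

/-!
# PENT (MP_892e4c_nt), part T: the vectors of the polygons (helper15)
-/

set_option autoImplicit false

namespace Pool.Agent.PENT

/-- the vector `(a w + b v) / det(v, w)` -/
def uu (v w : ℤ × ℤ) (a b : ℤ) : ℤ × ℤ :=
  ((a * w.1 + b * v.1) / dt v w, (a * w.2 + b * v.2) / dt v w)

/-- `(a w + b v) / det(v, w)` is integral -/
def Int2 (v w : ℤ × ℤ) (a b : ℤ) : Prop :=
  dt v w ∣ a * w.1 + b * v.1 ∧ dt v w ∣ a * w.2 + b * v.2

theorem uu_spec1 {v w : ℤ × ℤ} {a b : ℤ} (h : Int2 v w a b) :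
    dt v w * (uu v w a b).1 = a * w.1 + b * v.1 ∧ dt v w * (uu v w a b).2 = a * w.2 + b * v.2 :=
  ⟨Int.mul_ediv_cancel' h.1, Int.mul_ediv_cancel' h.2⟩

/-- the determinants with the two base vectors -/
theorem uu_dt {v w : ℤ × ℤ} {a b : ℤ} (h : Int2 v w a b) (h0 : dt v w ≠ 0) :
    dt v (uu v w a b) = a ∧ dt (uu v w a b) w = b := by
  obtain ⟨h1, h2⟩ := uu_spec1 h
  constructor
  · apply mul_left_cancel₀ h0
    have : dt v w * dt v (uu v w a b) =
        v.1 * (dt v w * (uu v w a b).2) - v.2 * (dt v w * (uu v w a b).1) := by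
      simp only [dt]; ring
    rw [this, h1, h2]
    simp only [dt]; ring
  · apply mul_left_cancel₀ h0
    have : dt v w * dt (uu v w a b) w =
        (dt v w * (uu v w a b).1) * w.2 - (dt v w * (uu v w a b).2) * w.1 := by
      simp only [dt]; ring
    rw [this, h1, h2]
    simp only [dt]; ring

/-- the determinant with an arbitrary vector -/
theorem uu_dt' {v w : ℤ × ℤ} {a b : ℤ} (h : Int2 v w a b) (z : ℤ × ℤ) :
    dt v w * dt z (uu v w a b) = a * dt z w + b * dt z v := by
  obtain ⟨h1, h2⟩ := uu_spec1 h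
  have : dt v w * dt z (uu v w a b) =
      z.1 * (dt v w * (uu v w a b).2) - z.2 * (dt v w * (uu v w a b).1) := by
    simp only [dt]; ring
  rw [this, h1, h2]
  simp only [dt]; ring

theorem dt_neg (u v : ℤ × ℤ) : dt u v = -dt v u := by simp only [dt]; ring

/-- for primitive vectors the integrality is one congruence -/
theorem int2_iff {v w : ℤ × ℤ} (hv : IsCoprime v.1 v.2) (hw : IsCoprime w.1 w.2) :
    ∃ μ : ℤ, IsCoprime μ (dt v w) ∧ ∀ a b : ℤ, Int2 v w a b ↔ dt v w ∣ b - μ * a := by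
  obtain ⟨x, y, hxy⟩ := hv
  -- v' = (-y, x) has dt v v' = 1;  w = (dt w v') v + (dt v w) v'
  set m : ℤ := dt w (-y, x) with hm
  have e1 : w.1 = m * v.1 + dt v w * (-y) := by
    simp only [hm, dt]; linear_combination (-w.1) * hxy
  have e2 : w.2 = m * v.2 + dt v w * x := by
    simp only [hm, dt]; linear_combination (-w.2) * hxy
  refine ⟨-m, ?_, ?_⟩
  · rw [IsCoprime.neg_left_iff]
    obtain ⟨s, t, hst⟩ := hw
    refine ⟨s * v.1 + t * v.2, s * (-y) + t * x, ?_⟩
    linear_combination hst - s * e1 - t * e2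
  · intro a b
    have key1 : a * w.1 + b * v.1 = (b - -m * a) * v.1 + dt v w * (a * (-y)) := by
      linear_combination a * e1
    have key2 : a * w.2 + b * v.2 = (b - -m * a) * v.2 + dt v w * (a * x) := by
      linear_combination a * e2
    constructor
    · rintro ⟨h1, h2⟩
      rw [key1] at h1
      rw [key2] at h2
      have h1' : dt v w ∣ (b - -m * a) * v.1 := (dvd_add_left (dvd_mul_right _ _)).1 h1
      have h2' : dt v w ∣ (b - -m * a) * v.2 := (dvd_add_left (dvd_mul_right _ _)).1 h2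
      have : b - -m * a = x * ((b - -m * a) * v.1) + y * ((b - -m * a) * v.2) := by
        linear_combination (-(b - -m * a)) * hxy
      rw [this]
      exact dvd_add (h1'.mul_left x) (h2'.mul_left y)
    · intro h
      refine ⟨?_, ?_⟩
      · rw [key1]; exact dvd_add (h.mul_right _) (dvd_mul_right _ _)
      · rw [key2]; exact dvd_add (h.mul_right _) (dvd_mul_right _ _)

theorem uu_inj {v w : ℤ × ℤ} {a b a' b' : ℤ} (h : Int2 v w a b) (h' : Int2 v w a' b')
    (h0 : dt v w ≠ 0) (he : uu v w a b = uu v w a' b') : a = a' ∧ b = b' := by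
  obtain ⟨h1, h2⟩ := uu_dt h h0
  obtain ⟨h3, h4⟩ := uu_dt h' h0
  exact ⟨by rw [← h1, ← h3, he], by rw [← h2, ← h4, he]⟩

end Pool.Agent.PENT
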