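import Pool.Agent.Lib_helper15.PENT.TFin

/-!
# PENT (MP_892e4c_nt): the lower bound of the mass from (T) and (Y) (helper15)
-/

set_option autoImplicit false

namespace Pool.Agent.PENT

open Finset Filter

/-- the statement (Y): the sum over the forms for one polygon -/
def YL : Prop := ∃ κ : ℝ, 0 < κ ∧ ∀ p : Par, p.Ok κ → ∃ t₁ : ℝ, 0 < t₁ ∧ ∀ t : ℝ, 0 < t → t ≤ t₁ →
    ∃ c : ℝ, 0 < c ∧ ∃ X₀ : ℕ, ∀ X ≥ X₀, ∀ u : Fin 5 → ℤ × ℤ, p.GP X u →
      c * X * (∏ j, (2 : ℝ) ^ (dt (u j) (u (j + 1))).natAbs.primeFactors.card /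
          ((dt (u j) (u (j + 1))).natAbs : ℝ)) * Real.log X ^ (-(299 / 80) : ℝ) ≤
        ∑ τ ∈ ((p.at' t).T X).filter (fun τ => τ.u = u),
          ∏ j, cm (wy (PP X) ((p.at' t).Y X)) (τ.y j)

theorem cm_nonneg' {g : ℕ → ℝ} (hg : ∀ l, 0 ≤ g l) (m : ℕ) : 0 ≤ cm g m := by
  unfold cm
  exact Finset.prod_nonneg (fun l _ => pow_nonneg (hg l) _)

theorem cm_wd_ge (Y : ℝ) {m : ℕ} (hm : Squarefree m) :
    (1 / 4 : ℝ) ^ m.primeFactors.card ≤ cm (wd Y) m := by
  unfold cm Finsupp.prod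
  rw [Nat.support_factorization, ← Finset.prod_const]
  apply Finset.prod_le_prod
  · intro l _; norm_num
  · intro l hl
    have hp := Nat.prime_of_mem_primeFactors hl
    have h1 : m.factorization l = 1 :=
      Nat.factorization_eq_one_of_squarefree hm hp (Nat.dvd_of_mem_primeFactors hl)
    show 1 / 4 ≤ wd Y l ^ m.factorization l
    rw [h1, pow_one]
    unfold wd
    split_ifs <;> norm_num

theorem wy_nonneg (P Y : ℝ) (l : ℕ) : 0 ≤ wy P Y l := by
  unfold wy
  split_ifs <;> norm_num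

/-- LOWER BOUND of the mass -/
theorem lower_of (hz : ∀ α : ℝ, 0 < α → α ≤ 1 → ZSS (1 / 100) α) (hx : XSS (1 / 100)) (hB : BAS)
    (hY : YL)
    (κ : ℝ) (hκ : 0 < κ) : ∃ p : Par, p.Ok κ ∧ ∃ t₁ : ℝ, 0 < t₁ ∧
    ∀ t : ℝ, 0 < t → t ≤ t₁ → ∃ c : ℝ, 0 < c ∧ ∃ X₀ : ℕ, ∀ X ≥ X₀,
      c * X * Real.log X ^ (-(5 / 2) : ℝ) ≤ ∑ τ ∈ (p.at' t).T X, (p.at' t).w X τ := by
  classical
  obtain ⟨ρ, hρ0, hρ1, HT⟩ := tsum hz hx hB (fun _ => 1 / 4) (fun _ => by norm_num)
    (fun _ => by norm_num)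
  obtain ⟨κY, hκY, HY⟩ := hY
  set k : ℝ := min κ (min κY (1 / 100)) with hk
  have hk0 : 0 < k := lt_min hκ (lt_min hκY (by norm_num))
  have hk1 : k ≤ κ := min_le_left _ _
  have hk2 : k ≤ κY := (min_le_right _ _).trans (min_le_left _ _)
  have hk3 : k ≤ 1 / 100 := (min_le_right _ _).trans (min_le_right _ _)
  set e4 : ℝ := ρ * k / 2 with he4
  set e1 : ℝ := ρ * e4 / 2 with he1
  have h4 : 0 < e4 := by positivity
  have h1 : 0 < e1 := by positivity
  have h4k : e4 ≤ k / 4 := by rw [he4]; nlinarith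
  have h14 : e1 ≤ e4 / 4 := by rw [he1]; nlinarith
  let p : Par := { e := ![k, e1, e4, e1, e4], ep := e1 / 100, c1 := 1 / 20, ta := 1, sg := sg5 }
  have hsg : ∀ i j, sg5 i j = 1 ∨ sg5 i j = -1 := by
    intro i j
    unfold sg5
    split_ifs
    · exact Or.inl rfl
    · exact Or.inr rfl
  have v0 : p.e 0 = k := rfl
  have v1 : p.e 1 = e1 := rfl
  have v2 : p.e 2 = e4 := rfl
  have v3 : p.e 3 = e1 := rfl
  have v4 : p.e 4 = e4 := rfl
  have vep : p.ep = e1 / 100 := rfl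
  have hOk : ∀ κ' : ℝ, k ≤ κ' → p.Ok κ' := by
    intro κ' hκ'
    refine ⟨by rw [vep]; linarith, ?_, ?_, ?_, by simp [p], by simp [p]; norm_num, hsg⟩
    · intro j
      rw [vep]
      fin_cases j
      · show 4 * (e1 / 100) ≤ k; linarith
      · show 4 * (e1 / 100) ≤ e1; linarith
      · show 4 * (e1 / 100) ≤ e4; linarith
      · show 4 * (e1 / 100) ≤ e1; linarith
      · show 4 * (e1 / 100) ≤ e4; linarith
    · intro j
      rw [vep]
      fin_cases j
      · show 4 * (e1 / 100) ≤ |k - e1|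
        rw [abs_of_pos (by linarith)]; linarith
      · show 4 * (e1 / 100) ≤ |e1 - e4|
        rw [abs_of_neg (by linarith)]; linarith
      · show 4 * (e1 / 100) ≤ |e4 - e1|
        rw [abs_of_pos (by linarith)]; linarith
      · show 4 * (e1 / 100) ≤ |e1 - e4|
        rw [abs_of_neg (by linarith)]; linarith
      · show 4 * (e1 / 100) ≤ |e4 - k|
        rw [abs_of_neg (by linarith)]; linarith
    · intro j
      fin_cases j
      · show k ≤ κ'; linarith
      · show e1 ≤ κ'; linarith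
      · show e4 ≤ κ'; linarith
      · show e1 ≤ κ'; linarith
      · show e4 ≤ κ'; linarith
  have hGeo : Geo ρ p := by
    have hO := hOk (1 / 100) hk3
    refine ⟨hO.ep0, hO.e4, hO.ek, ?_, ?_, ?_, ?_, rfl, rfl, rfl⟩
    · rw [v4, vep, v0]
      have : ρ * k = 2 * e4 := by rw [he4]; ring
      linarith
    · rw [v2, vep, v0]
      have : ρ * k = 2 * e4 := by rw [he4]; ring
      linarith
    · rw [v1, vep, v4]
      have : ρ * e4 = 2 * e1 := by rw [he1]; ring
      linarith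
    · rw [v1, vep, v2]
      have : ρ * e4 = 2 * e1 := by rw [he1]; ring
      linarith
  obtain ⟨c, hc, X₁, H1⟩ := HT p hGeo
  obtain ⟨t₁, ht₁, H2⟩ := HY p (hOk κY hk2)
  refine ⟨p, hOk κ hk1, t₁, ht₁, fun t ht ht' => ?_⟩
  obtain ⟨c', hc', X₂, H3⟩ := H2 t ht ht'
  refine ⟨c' * c, by positivity, X₁ + X₂ + 3, fun X hX => ?_⟩
  obtain ⟨G, hG1, hG2⟩ := H1 X (by omega)
  have hXr : (2 : ℝ) ≤ X := by exact_mod_cast (by omega : 2 ≤ X)
  have hL : 0 < Real.log X := Real.log_pos (by linarith)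
  have hwn : ∀ τ : Pol 5, 0 ≤ (p.at' t).w X τ := by
    intro τ
    unfold Par.w
    apply Finset.prod_nonneg
    intro j _
    apply mul_nonneg
    · apply cm_nonneg'
      intro l; unfold wd; split_ifs <;> norm_num
    · exact cm_nonneg' (wy_nonneg _ _) _
  -- restrict to the polygons of `G`
  have s1 : ∑ u ∈ G, ∑ τ ∈ ((p.at' t).T X).filter (fun τ => τ.u = u), (p.at' t).w X τ ≤
      ∑ τ ∈ (p.at' t).T X, (p.at' t).w X τ := by
    have e1 : ∑ u ∈ G, ∑ τ ∈ ((p.at' t).T X).filter (fun τ => τ.u = u), (p.at' t).w X τ =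
        ∑ τ ∈ ((p.at' t).T X).filter (fun τ => τ.u ∈ G), (p.at' t).w X τ := by
      rw [← Finset.sum_fiberwise_of_maps_to (s := ((p.at' t).T X).filter (fun τ => τ.u ∈ G))
        (t := G) (g := fun τ => τ.u) (fun τ hτ => (Finset.mem_filter.1 hτ).2)]
      apply Finset.sum_congr rfl
      intro u hu
      apply Finset.sum_congr _ (fun _ _ => rfl)
      ext τ
      simp only [Finset.mem_filter]
      constructor
      · rintro ⟨a, b⟩; exact ⟨⟨a, by rw [b]; exact hu⟩, b⟩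
      · rintro ⟨⟨a, _⟩, b⟩; exact ⟨a, b⟩
    rw [e1]
    exact Finset.sum_le_sum_of_subset_of_nonneg (Finset.filter_subset _ _)
      (fun τ _ _ => hwn τ)
  refine le_trans ?_ s1
  -- one polygon
  have s2 : ∀ u ∈ G, c' * X * Real.log X ^ (-(299 / 80) : ℝ) *
      (∏ j : Fin 5, (fw (PP X) (1 / 4) (dt (u j) (u (j + 1))).natAbs /
            ((dt (u j) (u (j + 1))).natAbs : ℝ))) ≤
      ∑ τ ∈ ((p.at' t).T X).filter (fun τ => τ.u = u), (p.at' t).w X τ := by
    intro u hu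
    have hu' := hG1 u hu
    have h5 := H3 X (by omega) u hu'
    have hdp := hu'.dp
    have e1 : ∏ j : Fin 5, (fw (PP X) (1 / 4) (dt (u j) (u (j + 1))).natAbs /
            ((dt (u j) (u (j + 1))).natAbs : ℝ)) =
        (∏ j : Fin 5, (1 / 4 : ℝ) ^ (dt (u j) (u (j + 1))).natAbs.primeFactors.card) *
        ∏ j, (2 : ℝ) ^ (dt (u j) (u (j + 1))).natAbs.primeFactors.card /
          ((dt (u j) (u (j + 1))).natAbs : ℝ) := by
      rw [← Finset.prod_mul_distrib]
      apply Finset.prod_congr rfl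
      intro j _
      unfold fw
      rw [if_pos (hdp j), ← mul_div_assoc ((1 / 4 : ℝ) ^ _), ← mul_pow]
      norm_num
    rw [e1]
    have hq : 0 ≤ ∏ j : Fin 5, (1 / 4 : ℝ) ^ (dt (u j) (u (j + 1))).natAbs.primeFactors.card :=
      Finset.prod_nonneg (fun j _ => by positivity)
    calc c' * X * Real.log X ^ (-(299 / 80) : ℝ) *
        ((∏ j : Fin 5, (1 / 4 : ℝ) ^ (dt (u j) (u (j + 1))).natAbs.primeFactors.card) *
        ∏ j, (2 : ℝ) ^ (dt (u j) (u (j + 1))).natAbs.primeFactors.card /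
          ((dt (u j) (u (j + 1))).natAbs : ℝ))
        = (∏ j : Fin 5, (1 / 4 : ℝ) ^ (dt (u j) (u (j + 1))).natAbs.primeFactors.card) *
          (c' * X * (∏ j, (2 : ℝ) ^ (dt (u j) (u (j + 1))).natAbs.primeFactors.card /
          ((dt (u j) (u (j + 1))).natAbs : ℝ)) * Real.log X ^ (-(299 / 80) : ℝ)) := by ring
      _ ≤ (∏ j : Fin 5, (1 / 4 : ℝ) ^ (dt (u j) (u (j + 1))).natAbs.primeFactors.card) *
          ∑ τ ∈ ((p.at' t).T X).filter (fun τ => τ.u = u),
            ∏ j, cm (wy (PP X) ((p.at' t).Y X)) (τ.y j) := mul_le_mul_of_nonneg_left h5 hq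
      _ = ∑ τ ∈ ((p.at' t).T X).filter (fun τ => τ.u = u),
            (∏ j : Fin 5, (1 / 4 : ℝ) ^ (dt (u j) (u (j + 1))).natAbs.primeFactors.card) *
              ∏ j, cm (wy (PP X) ((p.at' t).Y X)) (τ.y j) := by rw [Finset.mul_sum]
      _ ≤ _ := by
          apply Finset.sum_le_sum
          intro τ hτ
          obtain ⟨a, b⟩ := Finset.mem_filter.1 hτ
          unfold Par.w
          rw [Finset.prod_mul_distrib]
          apply mul_le_mul_of_nonneg_right
          · apply Finset.prod_le_prod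
            · intro j _; positivity
            · intro j _
              have : τ.d j = dt (u j) (u (j + 1)) := by rw [← b]; rfl
              rw [this]
              exact cm_wd_ge _ (hdp j).1
          · exact Finset.prod_nonneg (fun j _ => cm_nonneg' (wy_nonneg _ _) _)
  have s3 := Finset.sum_le_sum s2
  rw [← Finset.mul_sum] at s3
  refine le_trans ?_ s3
  have hpos : 0 ≤ c' * X * Real.log X ^ (-(299 / 80) : ℝ) :=
    mul_nonneg (by positivity) (Real.rpow_nonneg hL.le _)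
  refine le_trans ?_ (mul_le_mul_of_nonneg_left hG2 hpos)
  have e : (99 / 100 * ∑ _j : Fin 5, (1 / 4 : ℝ)) = 99 / 80 := by
    simp
    norm_num
  rw [e]
  have e2 : Real.log X ^ (-(5 / 2) : ℝ) =
      Real.log X ^ (-(299 / 80) : ℝ) * Real.log X ^ (99 / 80 : ℝ) := by
    rw [← Real.rpow_add hL]; norm_num
  rw [e2]
  apply le_of_eq
  ring

end Pool.Agent.PENT
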