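import Pool.Agent.Lib_helper15.PENT.TWin
import Pool.Agent.Lib_helper8.PENT.ZMain
import Pool.Agent.Lib_helper8.PENT.B.zq

/-!
# PENT (MP_892e4c_nt), part T: the inputs (ZS) and (XS) (helper15)
-/

set_option autoImplicit false

namespace Pool.Agent.PENT

open Finset Filter

theorem zss {θ : ℝ} (hθ : 0 < θ) (hθ1 : θ ≤ 1) (α : ℝ) (hα : 0 < α) (hα1 : α ≤ 1) :
    ZSS θ α := by
  classical
  obtain ⟨c, τ, D₀, hc, hτ, H⟩ := zs α θ hα hα1 hθ hθ1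
  refine ⟨c, τ, D₀, hc, hτ, fun D P q r F h1 h2 h3 h4 h5 h6 h7 h8 => ?_⟩
  have h := H D P q r F h1 h2 h3 h4 h5 h6 h7 h8
  rw [← mul_assoc]
  refine h.trans (le_of_eq ?_)
  apply Finset.sum_congr _ (fun _ _ => rfl)
  unfold Pset
  ext n
  simp only [Finset.mem_filter]

theorem xss {θ : ℝ} (hθ : 0 < θ) (hθ1 : θ ≤ 1) : XSS θ := xs θ hθ hθ1

end Pool.Agent.PENT
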