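import Pool.Agent.Lib_helper15.PENT.TSum

/-!
# PENT (MP_892e4c_nt), part T: the nested sum, assembly (helper15)
-/

set_option autoImplicit false

namespace Pool.Agent.PENT

open Finset Filter

theorem zw_of {α : ℝ} (hα : 0 < α) (hα1 : α ≤ 1) (hz : ZSS (1 / 100) α) :
    ∃ τ : ℝ, 0 < τ ∧ ∀ δ : ℝ, 0 < δ → ∃ c : ℝ, 0 < c ∧ ∃ X₀ : ℕ, ZW α δ τ c X₀ := by
  obtain ⟨τ, hτ, H⟩ := zsw (by norm_num) (by norm_num) hα hα1 hz
  refine ⟨τ, hτ, fun δ hδ => ?_⟩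
  obtain ⟨c, hc, X₀, hX₀⟩ := H δ hδ
  refine ⟨c, hc, X₀, fun X hX D q r F h1 h2 h3 h4 h5 h6 h7 => ?_⟩
  rw [pd_sum]
  exact hX₀ X hX D q r F h1 h2 h3 h4 h5 h6 h7

theorem xw_of (hx : XSS (1 / 100)) {δ : ℝ} (hδ : 0 < δ) :
    ∃ c : ℝ, 0 < c ∧ ∃ X₀ : ℕ, XW δ c X₀ := by
  obtain ⟨c, hc, X₀, hX₀⟩ := xsw (by norm_num) (by norm_num) hx δ hδ
  exact ⟨c, hc, X₀, fun X hX D q r F h1 h2 h3 h4 h5 h6 h7 =>
    hX₀ X hX D q r F h1 h2 h3 h4 h5 h6 h7⟩

/-- block B5: the nested sum for fixed base vectors -/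
theorem s5_sum (hz : ∀ α : ℝ, 0 < α → α ≤ 1 → ZSS (1 / 100) α) (hx : XSS (1 / 100))
    (al : Fin 5 → ℝ) (h0 : ∀ j, 0 < al j) (h1 : ∀ j, al j ≤ 1) :
    ∃ ρ : ℝ, 0 < ρ ∧ ρ ≤ 1 / 2 ∧ ∀ p : Par, Geo ρ p → ∃ c : ℝ, 0 < c ∧ ∃ X₀ : ℕ, ∀ X ≥ X₀,
      ∀ s : Fin 5 → ℝ, Win p X s → ∀ v w : ℤ × ℤ, Bas s v w →
      c * Real.log X ^ (∑ j, (99 / 100 * al j - 1)) *
        (((dt v w).natAbs.totient : ℝ) / (dt v w : ℝ) ^ 3) ≤
        ∑ t ∈ TT (S5 (PP X) s v w) 6, ∏ j ∈ range 6, w5 (PP X) al j t (t j) := by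
  obtain ⟨τ0, hτ0, H0⟩ := zw_of (h0 0) (h1 0) (hz _ (h0 0) (h1 0))
  obtain ⟨τ1, hτ1, H1⟩ := zw_of (h0 1) (h1 1) (hz _ (h0 1) (h1 1))
  obtain ⟨τ2, hτ2, H2⟩ := zw_of (h0 2) (h1 2) (hz _ (h0 2) (h1 2))
  obtain ⟨τ3, hτ3, H3⟩ := zw_of (h0 3) (h1 3) (hz _ (h0 3) (h1 3))
  obtain ⟨τ4, hτ4, H4⟩ := zw_of (h0 4) (h1 4) (hz _ (h0 4) (h1 4))
  set ρ : ℝ := min (1 / 8) (min (τ0 / 4) (τ1 / 4)) with hρdef
  have hρ0 : 0 < ρ := by
    rw [hρdef]
    exact lt_min (by norm_num) (lt_min (by linarith) (by linarith))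
  have hρ8 : ρ ≤ 1 / 8 := min_le_left _ _
  have hρτ0 : ρ ≤ τ0 / 4 := (min_le_right _ _).trans (min_le_left _ _)
  have hρτ1 : ρ ≤ τ1 / 4 := (min_le_right _ _).trans (min_le_right _ _)
  refine ⟨ρ, hρ0, by linarith, fun p hg => ?_⟩
  have he : ∀ j, 0 < p.e j := fun j => by have := hg.e4 j; have := hg.ep0; linarith
  obtain ⟨c0, hc0, X0, G0⟩ := H2 (p.e 2) (he 2)
  obtain ⟨c1, hc1, X1, G1⟩ := H1 (p.e 2) (he 2)
  obtain ⟨c2, hc2, X2, G2⟩ := H3 (p.e 4) (he 4)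
  obtain ⟨c3, hc3, X3, G3⟩ := xw_of hx (he 4)
  obtain ⟨c4, hc4, X4, G4⟩ := H4 (p.e 0) (he 0)
  obtain ⟨c5, hc5, X5, G5⟩ := H0 (p.e 0) (he 0)
  refine ⟨c0 * c1 * c2 * c3 * c4 * c5, by positivity, X0 + X1 + X2 + X3 + X4 + X5 + 3,
    fun X hX s hw v w hb => ?_⟩
  have hX2 : 2 ≤ X := by omega
  have hXr : (2 : ℝ) ≤ X := by exact_mod_cast hX2
  have hX0 : (0 : ℝ) < X := by linarith
  have hX1' : (1 : ℝ) ≤ X := by linarith
  have hsz := win_sizes hg hX2 hw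
  have hst : Stp X s v w ((X : ℝ) ^ (1 / 50 : ℝ)) := by
    refine ⟨hX2, fun j => (hsz j).1, fun j => (hsz j).2.2.2, ?_, hb⟩
    rw [← Real.rpow_natCast ((X : ℝ) ^ (1 / 50 : ℝ)) 50, ← Real.rpow_mul hX0.le]
    norm_num
  have hD := (bas_dt hst.pos hb).1
  have hDr : (0 : ℝ) < dt v w := by exact_mod_cast hD
  have hL : 0 < Real.log X := Real.log_pos (by linarith)
  -- moduli
  have mod13 : ∀ σ : ℝ, p.e 1 + p.e 3 + p.ep / 25 ≤ σ →
      (20 * s 1) * (20 * s 3) ≤ (X : ℝ) ^ σ := by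
    intro σ hσ
    calc (20 * s 1) * (20 * s 3) ≤ (X : ℝ) ^ (p.e 1 + p.ep / 50) * (X : ℝ) ^ (p.e 3 + p.ep / 50) :=
          mul_le_mul (hsz 1).2.2.1 (hsz 3).2.2.1 (by linarith [(hsz 3).1])
            (Real.rpow_nonneg hX0.le _)
      _ = (X : ℝ) ^ (p.e 1 + p.e 3 + p.ep / 25) := by
          rw [← Real.rpow_add hX0]; congr 1; ring
      _ ≤ _ := Real.rpow_le_rpow_of_exponent_le hX1' hσ
  have mod14 : ∀ σ : ℝ, p.e 1 + p.e 4 + p.ep / 25 ≤ σ →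
      (20 * s 1) * (20 * s 4) ≤ (X : ℝ) ^ σ := by
    intro σ hσ
    calc (20 * s 1) * (20 * s 4) ≤ (X : ℝ) ^ (p.e 1 + p.ep / 50) * (X : ℝ) ^ (p.e 4 + p.ep / 50) :=
          mul_le_mul (hsz 1).2.2.1 (hsz 4).2.2.1 (by linarith [(hsz 4).1])
            (Real.rpow_nonneg hX0.le _)
      _ = (X : ℝ) ^ (p.e 1 + p.e 4 + p.ep / 25) := by
          rw [← Real.rpow_add hX0]; congr 1; ring
      _ ≤ _ := Real.rpow_le_rpow_of_exponent_le hX1' hσ
  have g14 := hg.h14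
  have g12 := hg.h12
  have g13 := hg.h13
  have g40 := hg.h40
  have gep := hg.ep0
  have e0 := he 0
  have e2 := he 2
  have e4 := he 4
  have b1 : p.e 1 + p.e 3 + p.ep / 25 ≤ p.e 2 * τ1 := by
    rw [g13]; nlinarith
  have b2 : p.e 1 + p.e 3 + p.ep / 25 ≤ p.e 4 / 2 := by
    rw [g13]; nlinarith
  have b3 : p.e 1 + p.e 4 + p.ep / 25 ≤ p.e 0 * τ0 := by
    have h44 : p.e 1 + p.ep ≤ 1 * p.e 4 :=
      g14.trans (mul_le_mul_of_nonneg_right (by linarith) e4.le)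
    nlinarith
  -- the constants
  set L : ℝ := Real.log X with hLdef
  let cc : ℕ → ℝ := fun j =>
    if j = 0 then c0 * L ^ (99 / 100 * al 2 - 1)
    else if j = 1 then c1 * L ^ (99 / 100 * al 1 - 1) *
      ((dt v w).natAbs.totient / (dt v w : ℝ) ^ 2)
    else if j = 2 then c2 * L ^ (99 / 100 * al 3 - 1)
    else if j = 3 then c3 * (1 / (dt v w : ℝ))
    else if j = 4 then c4 * L ^ (99 / 100 * al 4 - 1)
    else c5 * L ^ (99 / 100 * al 0 - 1)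
  have hcc : ∀ j, 0 ≤ cc j := by
    intro j
    have hp : ∀ x : ℝ, 0 ≤ L ^ x := fun x => Real.rpow_nonneg hL.le x
    simp only [cc]
    have := hp (99 / 100 * al 2 - 1)
    have := hp (99 / 100 * al 1 - 1)
    have := hp (99 / 100 * al 3 - 1)
    have := hp (99 / 100 * al 4 - 1)
    have := hp (99 / 100 * al 0 - 1)
    split_ifs <;> positivity
  have main := TT_sum_ge (S := S5 (PP X) s v w) (w5 (PP X) al) cc
    (fun j t t' h => w5_dep (PP X) al j t t' h)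
    (fun j t n => w5_nonneg (PP X) (fun j => (h0 j).le) j t n) hcc 6 (by
      intro j hj t ht
      have hmem := TT_mem (s5_dep (PP X) s v w) ht
      interval_cases j
      · have := step0 (t := t) G0 (by omega) (by positivity) hst (hsz 2).2.1
        simpa [cc, w5] using this
      · have := step1 (t := t) G1 (by omega) hst (hsz 2).2.1 (mod13 _ b1) (hmem 0 (by norm_num))
        simpa [cc, w5] using this
      · have := step2 (t := t) G2 (by omega) (by positivity) hst (hsz 4).2.1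
          (hmem 0 (by norm_num)) (hmem 1 (by norm_num))
        simpa [cc, w5] using this
      · have := step3 (t := t) G3 (by omega) hst (hsz 4).2.1 (mod13 _ b2)
          (hmem 0 (by norm_num)) (hmem 1 (by norm_num)) (hmem 2 (by norm_num))
        simpa [cc, w5] using this
      · have := step4 (t := t) G4 (by omega) (by positivity) hst (hsz 0).2.1
          (hmem 0 (by norm_num)) (hmem 1 (by norm_num)) (hmem 2 (by norm_num))
          (hmem 3 (by norm_num))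
        simpa [cc, w5] using this
      · have := step5 (t := t) G5 (by omega) hst (hsz 0).2.1 (mod14 _ b3)
          (hmem 0 (by norm_num)) (hmem 1 (by norm_num)) (hmem 2 (by norm_num))
          (hmem 3 (by norm_num)) (hmem 4 (by norm_num))
        simpa [cc, w5] using this)
  refine le_trans (le_of_eq ?_) main
  have hsum : ∑ j, (99 / 100 * al j - 1) = (99 / 100 * al 2 - 1) + (99 / 100 * al 1 - 1) +
      (99 / 100 * al 3 - 1) + (99 / 100 * al 4 - 1) + (99 / 100 * al 0 - 1) := by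
    rw [Fin.sum_univ_five]; ring
  rw [hsum, Real.rpow_add hL, Real.rpow_add hL, Real.rpow_add hL, Real.rpow_add hL]
  simp only [Finset.prod_range_succ, Finset.prod_range_zero, cc]
  norm_num
  field_simp

end Pool.Agent.PENT
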